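import Pool.Agent.H921R2.LEC.Defs

/-! The signed number of starters (this file is by helper822, see
`Pool/Agent/H921R2/LEC/Starter.lean`). -/

set_option autoImplicit false

namespace Pool.Agent.H162R2.LEC

open Equiv Equiv.Perm Pool.Agent.H921R2.LEC

namespace Starter

variable (p : ℕ) [Fact p.Prime]

/-- half system of `ZMod p` -/
def HH : Finset (ZMod p) := Finset.univ.filter fun x => x.val < (-x).val

variable {p}

theorem mem_HH {x : ZMod p} : x ∈ HH p ↔ x.val < (-x).val := by
  simp [HH]

theorem neg_val_add {x : ZMod p} (hx : x ≠ 0) : x.val + (-x).val = p := by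
  have : NeZero x := ⟨hx⟩
  rw [ZMod.val_neg_of_ne_zero]
  have := ZMod.val_lt x
  omega

theorem two_ne (hp : p ≠ 2) : (2 : ZMod p) ≠ 0 := by
  intro h
  have h2 : ((2 : ℕ) : ZMod p) = 0 := by exact_mod_cast h
  rw [ZMod.natCast_eq_zero_iff] at h2
  have := (Nat.prime_dvd_prime_iff_eq (Fact.out : p.Prime) Nat.prime_two).1 h2
  exact hp this

theorem neg_ne (hp : p ≠ 2) {x : ZMod p} (hx : x ≠ 0) : -x ≠ x := by
  intro h
  have : 2 * x = 0 := by
    have : x + x = 0 := by nth_rewrite 1 [← h]; simp
    rw [two_mul]; exact this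
  rcases mul_eq_zero.1 this with h | h
  · exact two_ne hp h
  · exact hx h

theorem zero_not_mem : (0 : ZMod p) ∉ HH p := by
  rw [mem_HH]; simp

theorem ne_zero_of_mem {x : ZMod p} (h : x ∈ HH p) : x ≠ 0 := by
  rintro rfl; exact zero_not_mem h

theorem neg_not_mem {x : ZMod p} (h : x ∈ HH p) : -x ∉ HH p := by
  rw [mem_HH] at h ⊢
  rw [neg_neg]; omega

theorem mem_or (hp : p ≠ 2) {x : ZMod p} (hx : x ≠ 0) : x ∈ HH p ∨ -x ∈ HH p := by
  rw [mem_HH, mem_HH, neg_neg]
  rcases lt_trichotomy x.val (-x).val with h | h | h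
  · exact Or.inl h
  · exfalso
    exact neg_ne hp hx (ZMod.val_injective p h).symm
  · exact Or.inr h

theorem prod_split {M : Type} [CommMonoid M] (hp : p ≠ 2) (f : ZMod p → M) :
    ∏ x, f x = f 0 * ∏ d ∈ HH p, (f d * f (-d)) := by
  classical
  have h0 : (Finset.univ : Finset (ZMod p)) =
      insert 0 (HH p ∪ (HH p).image (fun x => -x)) := by
    ext x
    simp only [Finset.mem_univ, Finset.mem_insert, Finset.mem_union, Finset.mem_image, true_iff]
    by_cases hx : x = 0
    · exact Or.inl hx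
    · rcases mem_or hp hx with h | h
      · exact Or.inr (Or.inl h)
      · exact Or.inr (Or.inr ⟨-x, h, neg_neg x⟩)
  rw [h0, Finset.prod_insert, Finset.prod_union, Finset.prod_image, Finset.prod_mul_distrib]
  · intro x _ y _ h
    exact neg_injective h
  · rw [Finset.disjoint_left]
    intro x hx hx'
    rw [Finset.mem_image] at hx'
    obtain ⟨y, hy, rfl⟩ := hx'
    exact neg_not_mem hy hx
  · intro h
    rw [Finset.mem_union, Finset.mem_image] at h
    rcases h with h | ⟨y, hy, hy'⟩
    · exact zero_not_mem h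
    · rw [neg_eq_zero] at hy'
      subst hy'
      exact zero_not_mem hy

theorem sum_split {M : Type} [AddCommMonoid M] (hp : p ≠ 2) (f : ZMod p → M) :
    ∑ x, f x = f 0 + ∑ d ∈ HH p, (f d + f (-d)) := by
  classical
  have h0 : (Finset.univ : Finset (ZMod p)) =
      insert 0 (HH p ∪ (HH p).image (fun x => -x)) := by
    ext x
    simp only [Finset.mem_univ, Finset.mem_insert, Finset.mem_union, Finset.mem_image, true_iff]
    by_cases hx : x = 0
    · exact Or.inl hx
    · rcases mem_or hp hx with h | h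
      · exact Or.inr (Or.inl h)
      · exact Or.inr (Or.inr ⟨-x, h, neg_neg x⟩)
  rw [h0, Finset.sum_insert, Finset.sum_union, Finset.sum_image, Finset.sum_add_distrib]
  · intro x _ y _ h
    exact neg_injective h
  · rw [Finset.disjoint_left]
    intro x hx hx'
    rw [Finset.mem_image] at hx'
    obtain ⟨y, hy, rfl⟩ := hx'
    exact neg_not_mem hy hx
  · intro h
    rw [Finset.mem_union, Finset.mem_image] at h
    rcases h with h | ⟨y, hy, hy'⟩
    · exact zero_not_mem h
    · rw [neg_eq_zero] at hy'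
      subst hy'
      exact zero_not_mem hy

/-! ### the Vandermonde matrix -/

/-- power matrix of a map -/
def PM (u : ZMod p → ZMod p) : Matrix (ZMod p) (ZMod p) (ZMod p) :=
  Matrix.of fun x k => (u x) ^ k.val

theorem det_PM_id : (PM (p := p) id).det ≠ 0 := by
  have h := (ZMod.finEquiv p).toEquiv
  have e : PM (p := p) id =
    (Matrix.vandermonde (fun i : Fin p => (ZMod.finEquiv p i : ZMod p))).submatrix
      (ZMod.finEquiv p).symm (ZMod.finEquiv p).symm := by
    ext x k
    have hk : ((ZMod.finEquiv p).symm k : ℕ) = k.val := by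
      have hp := (Fact.out : p.Prime).pos
      cases p with
      | zero => exact absurd hp (lt_irrefl _)
      | succ n => rfl
    simp [PM, Matrix.vandermonde, hk]
  rw [e]
  erw [Matrix.det_submatrix_equiv_self (ZMod.finEquiv p).symm.toEquiv]
  rw [Matrix.det_vandermonde_ne_zero_iff]
  exact (ZMod.finEquiv p).injective

theorem det_PM_perm (u : Perm (ZMod p)) :
    (PM (p := p) u).det = ((sign u : ℤˣ) : ℤ) * (PM (p := p) id).det := by
  have : PM (p := p) u = (PM (p := p) id).submatrix u id := by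
    ext x k; simp [PM]
  rw [this, Matrix.det_permute]

theorem det_PM_not_inj (u : ZMod p → ZMod p) (h : ¬ Function.Injective u) :
    (PM (p := p) u).det = 0 := by
  unfold Function.Injective at h
  push Not at h
  obtain ⟨x, y, hxy, hne⟩ := h
  refine Matrix.det_zero_of_row_eq hne ?_
  ext k
  simp [PM, hxy]

theorem Tst_mul :
    ((Tst p : ℤ) : ZMod p) * (PM (p := p) id).det =
      ∑ u : ZMod p → ZMod p, if u 0 = 0 ∧ (∀ d, u d - u (-d) = d) then (PM u).det else 0 := by
  classical
  unfold Tst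
  rw [Int.cast_sum, Finset.sum_mul]
  refine Finset.sum_of_injOn (fun u : Perm (ZMod p) => (u : ZMod p → ZMod p)) ?_ ?_ ?_ ?_
  · intro u _ v _ h
    exact Equiv.coe_fn_injective h
  · intro u _; simp
  · intro u _ hu
    by_cases hi : Function.Injective u
    · exfalso
      apply hu
      refine ⟨Equiv.ofBijective u ⟨hi, Finite.surjective_of_injective hi⟩, by simp, rfl⟩
    · rw [det_PM_not_inj u hi]; simp
  · intro u _
    show _ = if u 0 = 0 ∧ (∀ d, u d - u (-d) = d) then (PM (u : ZMod p → ZMod p)).det else 0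
    split_ifs with h
    · rw [det_PM_perm]
    · simp

/-- the map with parameters `a` -/
def Ua (a : HH p → ZMod p) (x : ZMod p) : ZMod p :=
  if h : x ∈ HH p then a ⟨x, h⟩ + x else if h : -x ∈ HH p then a ⟨-x, h⟩ else 0

theorem Ua_mem (a : HH p → ZMod p) (d : HH p) : Ua a d = a d + d := by
  unfold Ua; simp [d.2]

theorem Ua_neg (a : HH p → ZMod p) (d : HH p) : Ua a (-d) = a d := by
  unfold Ua
  rw [dif_neg (neg_not_mem d.2)]
  simp [d.2]

theorem Ua_zero (a : HH p → ZMod p) : Ua a 0 = 0 := by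
  unfold Ua
  rw [dif_neg zero_not_mem, dif_neg]
  rw [neg_zero]; exact zero_not_mem

theorem Ua_cond (hp : p ≠ 2) (a : HH p → ZMod p) (d : ZMod p) : Ua a d - Ua a (-d) = d := by
  by_cases hd : d = 0
  · subst hd; simp
  · rcases mem_or hp hd with h | h
    · have h1 := Ua_mem a ⟨d, h⟩
      have h2 := Ua_neg a ⟨d, h⟩
      simp only at h1 h2
      rw [h1, h2]; ring
    · have h1 := Ua_mem a ⟨-d, h⟩
      have h2 := Ua_neg a ⟨-d, h⟩
      simp only [neg_neg] at h1 h2
      rw [h1, h2]; ring

theorem sum_Ua (hp : p ≠ 2) :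
    (∑ u : ZMod p → ZMod p, if u 0 = 0 ∧ (∀ d, u d - u (-d) = d) then (PM u).det else 0) =
      ∑ a : HH p → ZMod p, (PM (Ua a)).det := by
  classical
  symm
  refine Finset.sum_of_injOn (fun a : HH p → ZMod p => Ua a) ?_ ?_ ?_ ?_
  · intro a _ b _ h
    funext d
    have := congrFun h (-d)
    simp only [Ua_neg] at this
    exact this
  · intro a _; simp
  · intro u _ hu
    rw [if_neg]
    rintro ⟨h0, h1⟩
    apply hu
    refine ⟨fun d => u (-d), by simp, ?_⟩
    funext x
    show Ua (fun d : HH p => u (-d)) x = u x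
    by_cases hx : x = 0
    · subst hx; rw [Ua_zero, h0]
    · rcases mem_or hp hx with h | h
      · have h2 := Ua_mem (fun d : HH p => u (-d)) ⟨x, h⟩
        simp only at h2
        rw [h2]
        have := h1 x
        linear_combination -this
      · have h2 := Ua_neg (fun d : HH p => u (-d)) ⟨-x, h⟩
        simp only [neg_neg] at h2
        exact h2
  · intro a _
    show _ = if Ua a 0 = 0 ∧ (∀ d, Ua a d - Ua a (-d) = d) then (PM (Ua a)).det else 0
    rw [if_pos ⟨Ua_zero a, Ua_cond hp a⟩]

/-! ### row operations -/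

/-- the matrix after subtraction of the rows `-d` from the rows `d`, `d ∈ s` -/
def RM (s : Finset (ZMod p)) (u : ZMod p → ZMod p) : Matrix (ZMod p) (ZMod p) (ZMod p) :=
  Matrix.of fun x k => (u x) ^ k.val - (if x ∈ s then (u (-x)) ^ k.val else 0)

theorem det_RM (u : ZMod p → ZMod p) (s : Finset (ZMod p)) (hs : s ⊆ HH p) :
    (RM s u).det = (PM u).det := by
  classical
  induction s using Finset.induction_on with
  | empty =>
    congr 1
    ext x k
    simp [RM, PM]
  | insert d s hd ih =>
    have hdH : d ∈ HH p := hs (Finset.mem_insert_self d s)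
    have hs' : s ⊆ HH p := fun x hx => hs (Finset.mem_insert_of_mem hx)
    have hnd : -d ∉ s := fun h => neg_not_mem hdH (hs' h)
    have hne : d ≠ -d := fun h => neg_not_mem hdH (by rw [← h]; exact hdH)
    rw [← ih hs']
    rw [← Matrix.det_updateRow_add_smul_self (RM s u) hne (-1)]
    congr 1
    ext x k
    by_cases hx : x = d
    · subst hx
      rw [Matrix.updateRow_self]
      simp [RM, hd, hnd]
      ring
    · rw [Matrix.updateRow_ne hx]
      simp [RM, hx]

/-- the local factor -/
def gg (d k l : ZMod p) : ZMod p :=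
  ∑ b : ZMod p, b ^ k.val * ((b + d) ^ l.val - b ^ l.val)

theorem det_expand (hp : p ≠ 2) (a : HH p → ZMod p) :
    (PM (Ua a)).det = ∑ π : Perm (ZMod p), ((sign π : ℤˣ) : ℤ) *
      ((0 : ZMod p) ^ (π 0).val * ∏ d : HH p,
        ((a d) ^ (π (-d)).val * ((a d + d) ^ (π d).val - (a d) ^ (π d).val))) := by
  classical
  rw [← det_RM (Ua a) (HH p) (Finset.Subset.refl _), ← Matrix.det_transpose, Matrix.det_apply']
  refine Finset.sum_congr rfl fun π _ => ?_
  congr 1
  rw [prod_split hp]
  congr 1
  · simp [RM, Ua_zero, zero_not_mem]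
  · rw [← Finset.prod_coe_sort (HH p)]
    refine Finset.prod_congr rfl fun d _ => ?_
    have h1 := Ua_mem a d
    have h2 := Ua_neg a d
    have h3 := neg_not_mem d.2
    simp only [Matrix.transpose_apply, RM, Matrix.of_apply, h1, h2, neg_neg, d.2, h3, if_true,
      if_false, sub_zero]
    ring

theorem sum_det (hp : p ≠ 2) :
    ∑ a : HH p → ZMod p, (PM (Ua a)).det = ∑ π : Perm (ZMod p), ((sign π : ℤˣ) : ℤ) *
      ((0 : ZMod p) ^ (π 0).val * ∏ d : HH p, gg (d : ZMod p) (π (-d)) (π d)) := by
  classical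
  have h1 : ∀ a : HH p → ZMod p, (PM (Ua a)).det = _ := fun a => det_expand hp a
  rw [Finset.sum_congr rfl fun a _ => h1 a, Finset.sum_comm]
  refine Finset.sum_congr rfl fun π _ => ?_
  rw [← Finset.mul_sum, ← Finset.mul_sum]
  congr 2
  unfold gg
  rw [Finset.prod_univ_sum, Fintype.piFinset_univ]

theorem sum_pow_zero (i : ℕ) (h : i < p - 1) : ∑ b : ZMod p, b ^ i = 0 := by
  apply FiniteField.sum_pow_lt_card_sub_one
  rw [Fintype.card_eq_nat_card, Nat.card_eq_fintype_card, ZMod.card]
  exact h

theorem sum_pow_top : ∑ b : ZMod p, b ^ (p - 1) = -1 := by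
  classical
  have hp := (Fact.out : p.Prime).two_le
  have h1 : ∀ b : ZMod p, b ^ (p - 1) = if b = 0 then 0 else 1 := by
    intro b
    split_ifs with h
    · subst h; rw [zero_pow (by omega)]
    · exact ZMod.pow_card_sub_one_eq_one h
  rw [Finset.sum_congr rfl fun b _ => h1 b]
  have h2 : ∀ b : ZMod p, (if b = 0 then (0 : ZMod p) else 1) = 1 - (if b = 0 then 1 else 0) := by
    intro b; split_ifs <;> simp
  rw [Finset.sum_congr rfl fun b _ => h2 b, Finset.sum_sub_distrib]
  simp

theorem gg_expand (d k l : ZMod p) :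
    gg d k l = ∑ m ∈ Finset.range l.val, (d ^ (l.val - m) * (l.val.choose m : ZMod p)) *
      ∑ b : ZMod p, b ^ (k.val + m) := by
  unfold gg
  have h1 : ∀ b : ZMod p, b ^ k.val * ((b + d) ^ l.val - b ^ l.val) =
      ∑ m ∈ Finset.range l.val, (d ^ (l.val - m) * (l.val.choose m : ZMod p)) * b ^ (k.val + m) := by
    intro b
    rw [add_pow, Finset.sum_range_succ]
    simp only [Nat.sub_self, pow_zero, mul_one, Nat.choose_self, Nat.cast_one]
    rw [add_sub_cancel_right, Finset.mul_sum]
    refine Finset.sum_congr rfl fun m _ => ?_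
    rw [pow_add]; ring
  rw [Finset.sum_congr rfl fun b _ => h1 b, Finset.sum_comm]
  refine Finset.sum_congr rfl fun m _ => ?_
  rw [Finset.mul_sum]

theorem gg_zero (d k l : ZMod p) (h : k.val + l.val < p) : gg d k l = 0 := by
  rw [gg_expand]
  refine Finset.sum_eq_zero fun m hm => ?_
  rw [Finset.mem_range] at hm
  rw [sum_pow_zero, mul_zero]
  omega

theorem gg_top (d k l : ZMod p) (hl : l ≠ 0) (h : k.val + l.val = p) : gg d k l = -(l * d) := by
  rw [gg_expand]
  have hl' : 0 < l.val := Nat.pos_of_ne_zero fun h => hl ((ZMod.val_eq_zero l).1 h)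
  obtain ⟨n, hn⟩ : ∃ n, l.val = n + 1 := ⟨l.val - 1, by omega⟩
  rw [hn, Finset.sum_range_succ, Finset.sum_eq_zero, zero_add]
  · have h1 : k.val + n = p - 1 := by omega
    rw [h1, sum_pow_top]
    have h2 : ((n + 1).choose n : ZMod p) = l := by
      rw [Nat.choose_succ_self_right, ← hn, ZMod.natCast_zmod_val]
    rw [h2]
    simp [mul_comm]
  · intro m hm
    rw [Finset.mem_range] at hm
    rw [sum_pow_zero, mul_zero]
    omega

/-- odd permutations (commuting with the negation) -/
def Odd' (π : Perm (ZMod p)) : Prop := ∀ x, π (-x) = -π x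

theorem odd_zero (hp : p ≠ 2) {π : Perm (ZMod p)} (h : Odd' π) : π 0 = 0 := by
  by_contra h0
  have := h 0
  rw [neg_zero] at this
  exact neg_ne hp h0 this.symm

theorem total (hp : p ≠ 2) (π : Perm (ZMod p)) (h0 : π 0 = 0) :
    ∑ d ∈ HH p, ((π (-d)).val + (π d).val) = ∑ _d ∈ HH p, p := by
  have h1 : ∑ x, (π x).val = ∑ x : ZMod p, x.val := Equiv.sum_comp π (fun x => x.val)
  rw [sum_split hp, sum_split hp, h0] at h1
  simp only [ZMod.val_zero, zero_add] at h1
  have h2 : ∑ d ∈ HH p, (d.val + (-d).val) = ∑ _d ∈ HH p, p :=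
    Finset.sum_congr rfl fun d hd => neg_val_add (ne_zero_of_mem hd)
  rw [← h2, ← h1]
  refine Finset.sum_congr rfl fun d _ => ?_
  ring

theorem term_zero (hp : p ≠ 2) (π : Perm (ZMod p)) (h : ¬ Odd' π) :
    (0 : ZMod p) ^ (π 0).val * ∏ d : HH p, gg (d : ZMod p) (π (-d)) (π d) = 0 := by
  classical
  by_cases h0 : π 0 = 0
  · rw [Finset.prod_coe_sort (HH p) (fun d => gg d (π (-d)) (π d))]
    by_contra hne
    have hne' := (mul_ne_zero_iff.1 hne).2
    rw [Finset.prod_ne_zero_iff] at hne'
    have h1 : ∀ d ∈ HH p, p ≤ (π (-d)).val + (π d).val := by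
      intro d hd
      by_contra hlt
      exact hne' d hd (gg_zero _ _ _ (by omega))
    have h2 := (Finset.sum_eq_sum_iff_of_le h1).1 (total hp π h0).symm
    apply h
    have h3 : ∀ d ∈ HH p, π (-d) = -π d := by
      intro d hd
      have h4 := h2 d hd
      have h5 : π d ≠ 0 := by
        intro h6
        rw [← h0] at h6
        exact ne_zero_of_mem hd (π.injective h6)
      have h6 := neg_val_add h5
      apply ZMod.val_injective p
      omega
    intro x
    by_cases hx : x = 0
    · subst hx; rw [neg_zero, h0, neg_zero]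
    · rcases mem_or hp hx with hx' | hx'
      · exact h3 x hx'
      · have := h3 _ hx'
        rw [neg_neg] at this
        rw [this, neg_neg]
  · rw [zero_pow, zero_mul]
    intro h1
    exact h0 ((ZMod.val_eq_zero _).1 h1)

theorem term_odd (hp : p ≠ 2) (π : Perm (ZMod p)) (h : Odd' π) :
    (0 : ZMod p) ^ (π 0).val * ∏ d : HH p, gg (d : ZMod p) (π (-d)) (π d) =
      (-1) ^ (HH p).card * (∏ d ∈ HH p, d) * ∏ d ∈ HH p, π d := by
  classical
  rw [odd_zero hp h, ZMod.val_zero, pow_zero, one_mul,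
    Finset.prod_coe_sort (HH p) (fun d => gg d (π (-d)) (π d))]
  have h1 : ∀ d ∈ HH p, gg d (π (-d)) (π d) = (-1) * (d * π d) := by
    intro d hd
    have h5 : π d ≠ 0 := by
      intro h6
      rw [← odd_zero hp h] at h6
      exact ne_zero_of_mem hd (π.injective h6)
    rw [gg_top _ _ _ h5]
    · ring
    · rw [h d, add_comm]; exact neg_val_add h5
  rw [Finset.prod_congr rfl h1, Finset.prod_mul_distrib, Finset.prod_const,
    Finset.prod_mul_distrib, mul_assoc]

/-! ### the sign of odd permutations -/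

open Classical in
/-- representative in the half system -/
noncomputable def ab (x : ZMod p) : ZMod p := if x ∈ HH p then x else -x

theorem ab_mem (hp : p ≠ 2) {x : ZMod p} (hx : x ≠ 0) : ab x ∈ HH p := by
  unfold ab
  split_ifs with h
  · exact h
  · exact (mem_or hp hx).resolve_left h

theorem ab_or (x : ZMod p) : ab x = x ∨ ab x = -x := by
  unfold ab; split_ifs <;> simp

theorem ab_self {d : ZMod p} (hd : d ∈ HH p) : ab d = d := by
  unfold ab; rw [if_pos hd]

theorem ab_neg_self {d : ZMod p} (hd : d ∈ HH p) : ab (-d) = d := by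
  unfold ab; rw [if_neg (neg_not_mem hd), neg_neg]

theorem odd_inv {π : Perm (ZMod p)} (h : Odd' π) : Odd' π⁻¹ := by
  intro x
  have h1 : π (-(π⁻¹ x)) = -x := by rw [h]; simp
  rw [← h1]; simp

theorem odd_mul {g π : Perm (ZMod p)} (h : Odd' g) (h' : Odd' π) : Odd' (g * π) := by
  intro x
  rw [Equiv.Perm.mul_apply, h', h, Equiv.Perm.mul_apply]

theorem odd_ne_zero (hp : p ≠ 2) {π : Perm (ZMod p)} (h : Odd' π) {x : ZMod p} (hx : x ≠ 0) :
    π x ≠ 0 := by
  intro h6
  rw [← odd_zero hp h] at h6
  exact hx (π.injective h6)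

theorem ab_odd {π : Perm (ZMod p)} (h : Odd' π) (x : ZMod p) {d : ZMod p} (hd : d ∈ HH p)
    (hx : x = π d ∨ x = -π d) : ab (π⁻¹ x) = d := by
  rcases hx with hx | hx
  · have h1 : π⁻¹ (π d) = d := by simp
    rw [hx, h1, ab_self hd]
  · have h1 : π⁻¹ (π (-d)) = -d := by simp
    rw [hx, ← h, h1, ab_neg_self hd]

theorem prod_even {M : Type} [CommMonoid M] (hp : p ≠ 2) {π : Perm (ZMod p)} (h : Odd' π)
    (F : ZMod p → M) (hF : ∀ x, F (-x) = F x) :
    ∏ d ∈ HH p, F (π d) = ∏ d ∈ HH p, F d := by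
  refine Finset.prod_nbij' (fun d => ab (π d)) (fun e => ab (π⁻¹ e)) ?_ ?_ ?_ ?_ ?_
  · intro d hd
    exact ab_mem hp (odd_ne_zero hp h (ne_zero_of_mem hd))
  · intro d hd
    exact ab_mem hp (odd_ne_zero hp (odd_inv h) (ne_zero_of_mem hd))
  · intro d hd
    exact ab_odd h _ hd (ab_or _)
  · intro d hd
    have := ab_odd (odd_inv h) (ab (π⁻¹ d)) hd (ab_or _)
    rwa [inv_inv] at this
  · intro d _
    show F (π d) = F (ab (π d))
    rcases ab_or (π d) with h1 | h1
    · rw [h1]
    · rw [h1, hF]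

theorem P0_ne : ∏ d ∈ HH p, d ≠ 0 := by
  rw [Finset.prod_ne_zero_iff]
  intro d hd
  exact ne_zero_of_mem hd

/-- the sign formula -/
def CC (π : Perm (ZMod p)) : Prop :=
  (((sign π : ℤˣ) : ℤ) : ZMod p) * ∏ d ∈ HH p, π d = ∏ d ∈ HH p, d

theorem hh_mul (hp : p ≠ 2) {g π : Perm (ZMod p)} (h : Odd' g) (h' : Odd' π) :
    (∏ d ∈ HH p, (g * π) d) * ∏ d ∈ HH p, d = (∏ d ∈ HH p, g d) * ∏ d ∈ HH p, π d := by
  have h1 : ∏ d ∈ HH p, (g * π) d = (∏ d ∈ HH p, (g (π d) / π d)) * ∏ d ∈ HH p, π d := by
    rw [← Finset.prod_mul_distrib]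
    refine Finset.prod_congr rfl fun d hd => ?_
    rw [div_mul_cancel₀ _ (odd_ne_zero hp h' (ne_zero_of_mem hd)), Equiv.Perm.mul_apply]
  have h2 : ∏ d ∈ HH p, (g (π d) / π d) = ∏ d ∈ HH p, (g d / d) := by
    apply prod_even hp h' (fun x => g x / x)
    intro x
    rw [h, neg_div_neg_eq]
  have h3 : (∏ d ∈ HH p, (g d / d)) * ∏ d ∈ HH p, d = ∏ d ∈ HH p, g d := by
    rw [← Finset.prod_mul_distrib]
    refine Finset.prod_congr rfl fun d hd => ?_
    rw [div_mul_cancel₀ _ (ne_zero_of_mem hd)]
  rw [h1, h2, ← h3]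
  ring

theorem CC_mul (hp : p ≠ 2) {g π : Perm (ZMod p)} (h : Odd' g) (h' : Odd' π) (hg : CC g)
    (hπ : CC π) : CC (g * π) := by
  unfold CC at *
  have h1 := hh_mul hp h h'
  apply mul_right_cancel₀ P0_ne
  rw [Equiv.Perm.sign_mul, mul_assoc, h1]
  push_cast
  rw [show ∀ a b c d : ZMod p, a * b * (c * d) = (a * c) * (b * d) from fun a b c d => by ring,
    hg, hπ]

theorem odd_flip (x : ZMod p) : Odd' (swap x (-x)) := by
  intro y
  by_cases h1 : y = x
  · subst h1; simp
  · by_cases h2 : y = -x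
    · subst h2; simp
    · rw [swap_apply_of_ne_of_ne h1 h2, swap_apply_of_ne_of_ne]
      · intro h; exact h2 (by rw [← h, neg_neg])
      · intro h; exact h1 (neg_injective h)

theorem CC_flip (hp : p ≠ 2) {x : ZMod p} (hx : x ∈ HH p) : CC (swap x (-x)) := by
  classical
  have hne : x ≠ -x := fun h => neg_ne hp (ne_zero_of_mem hx) h.symm
  unfold CC
  rw [sign_swap hne, ← Finset.mul_prod_erase _ _ hx, ← Finset.mul_prod_erase _ _ hx,
    swap_apply_left]
  have h1 : ∏ d ∈ (HH p).erase x, (swap x (-x)) d = ∏ d ∈ (HH p).erase x, d := by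
    refine Finset.prod_congr rfl fun d hd => ?_
    rw [Finset.mem_erase] at hd
    rw [swap_apply_of_ne_of_ne hd.1]
    rintro rfl
    exact neg_not_mem hx hd.2
  rw [h1]
  push_cast
  ring

/-- double transposition -/
def dt (x y : ZMod p) : Perm (ZMod p) := swap x y * swap (-x) (-y)

theorem dt_x {x y : ZMod p} (h1 : x ≠ -x) (h2 : x ≠ -y) : dt x y x = y := by
  unfold dt
  rw [Equiv.Perm.mul_apply, swap_apply_of_ne_of_ne h1 h2, swap_apply_left]

theorem dt_y {x y : ZMod p} (h1 : y ≠ -x) (h2 : y ≠ -y) : dt x y y = x := by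
  unfold dt
  rw [Equiv.Perm.mul_apply, swap_apply_of_ne_of_ne h1 h2, swap_apply_right]

theorem dt_nx {x y : ZMod p} (h1 : y ≠ -x) (h2 : y ≠ -y) : dt x y (-x) = -y := by
  unfold dt
  rw [Equiv.Perm.mul_apply, swap_apply_left, swap_apply_of_ne_of_ne]
  · intro h; exact h1 (by rw [← h, neg_neg])
  · exact fun h => h2 h.symm

theorem dt_ny {x y : ZMod p} (h1 : x ≠ -x) (h2 : x ≠ -y) : dt x y (-y) = -x := by
  unfold dt
  rw [Equiv.Perm.mul_apply, swap_apply_right, swap_apply_of_ne_of_ne]
  · exact fun h => h1 h.symm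
  · intro h; exact h2 (by rw [← h, neg_neg])

theorem dt_ne {x y z : ZMod p} (h1 : z ≠ x) (h2 : z ≠ y) (h3 : z ≠ -x) (h4 : z ≠ -y) :
    dt x y z = z := by
  unfold dt
  rw [Equiv.Perm.mul_apply, swap_apply_of_ne_of_ne h3 h4, swap_apply_of_ne_of_ne h1 h2]

theorem odd_dt (hp : p ≠ 2) {x y : ZMod p} (hx : x ≠ 0) (hy : y ≠ 0) (hxy : x ≠ -y) :
    Odd' (dt x y) := by
  have hx' : x ≠ -x := fun h => neg_ne hp hx h.symm
  have hy' : y ≠ -y := fun h => neg_ne hp hy h.symm
  have hyx : y ≠ -x := fun h => hxy (by rw [h, neg_neg])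
  intro z
  by_cases h1 : z = x
  · subst h1; rw [dt_nx hyx hy', dt_x hx' hxy]
  · by_cases h2 : z = y
    · subst h2; rw [dt_ny hx' hxy, dt_y hyx hy']
    · by_cases h3 : z = -x
      · subst h3; rw [neg_neg, dt_nx hyx hy', dt_x hx' hxy, neg_neg]
      · by_cases h4 : z = -y
        · subst h4; rw [neg_neg, dt_ny hx' hxy, dt_y hyx hy', neg_neg]
        · rw [dt_ne h1 h2 h3 h4, dt_ne]
          · exact fun h => h3 (by rw [← h, neg_neg])
          · exact fun h => h4 (by rw [← h, neg_neg])
          · exact fun h => h1 (neg_injective h)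
          · exact fun h => h2 (neg_injective h)

theorem CC_dt (hp : p ≠ 2) {x y : ZMod p} (hx : x ∈ HH p) (hy : y ≠ 0) (hxy : x ≠ -y)
    (hxy' : x ≠ y) : CC (dt x y) := by
  classical
  have hx0 := ne_zero_of_mem hx
  have hx' : x ≠ -x := fun h => neg_ne hp hx0 h.symm
  have hy' : y ≠ -y := fun h => neg_ne hp hy h.symm
  have hyx : y ≠ -x := fun h => hxy (by rw [h, neg_neg])
  have hs : sign (dt x y) = 1 := by
    unfold dt
    rw [Equiv.Perm.sign_mul, sign_swap hxy', sign_swap (fun h => hxy' (neg_injective h))]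
    simp
  unfold CC
  rw [hs, ← Finset.mul_prod_erase _ _ hx, ← Finset.mul_prod_erase _ _ hx]
  have hab : ab y ∈ (HH p).erase x := by
    rw [Finset.mem_erase]
    refine ⟨?_, ab_mem hp hy⟩
    rcases ab_or y with h | h
    · rw [h]; exact fun h => hxy' h.symm
    · rw [h]; exact fun h => hxy h.symm
  rw [← Finset.mul_prod_erase _ _ hab, ← Finset.mul_prod_erase _ _ hab]
  have h1 : ∏ d ∈ ((HH p).erase x).erase (ab y), (dt x y) d =
      ∏ d ∈ ((HH p).erase x).erase (ab y), d := by
    refine Finset.prod_congr rfl fun d hd => ?_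
    rw [Finset.mem_erase, Finset.mem_erase] at hd
    obtain ⟨h1, h2, h3⟩ := hd
    rw [dt_ne h2]
    · rintro rfl
      exact h1 (ab_self h3).symm
    · rintro rfl
      exact neg_not_mem hx h3
    · rintro rfl
      rcases ab_or y with h | h
      · have := ab_mem hp hy
        rw [h] at this
        exact neg_not_mem this h3
      · exact h1 h.symm
  rw [h1]
  rcases ab_or y with h | h
  · rw [h, dt_x hx' hxy, dt_y hyx hy']
    push_cast; ring
  · rw [h, dt_x hx' hxy, dt_ny hx' hxy]
    push_cast; ring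

theorem CC_all (hp : p ≠ 2) : ∀ (n : ℕ) (π : Perm (ZMod p)), π.support.card = n → Odd' π →
    CC π := by
  classical
  intro n
  induction n using Nat.strong_induction_on with
  | _ n ih =>
    intro π hn hodd
    by_cases h1 : π = 1
    · subst h1
      unfold CC
      simp
    -- a moved point in the half system
    obtain ⟨x, hx, hpx⟩ : ∃ x ∈ HH p, π x ≠ x := by
      by_contra hcon
      push Not at hcon
      apply h1
      ext z
      by_cases hz : z = 0
      · rw [hz, odd_zero hp hodd]; rfl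
      · rcases mem_or hp hz with h | h
        · rw [hcon z h]; rfl
        · have h3 := hcon _ h
          rw [hodd] at h3
          rw [neg_injective h3]; rfl
    have hx0 := ne_zero_of_mem hx
    -- it suffices to find an odd g with CC g, g (π x) = x, and g fixes the fixed points of π
    have step : ∀ g : Perm (ZMod p), Odd' g → CC g⁻¹ → g (π x) = x →
        (∀ z, π z = z → g z = z) → CC π := by
      intro g hg hgC hgx hfix
      have hlt : (g * π).support.card < n := by
        rw [← hn]
        apply Finset.card_lt_card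
        rw [Finset.ssubset_iff_of_subset]
        · exact ⟨x, by rw [Equiv.Perm.mem_support]; exact hpx, by
            rw [Equiv.Perm.mem_support]; simp [hgx]⟩
        · intro z hz
          rw [Equiv.Perm.mem_support] at hz ⊢
          intro hz'
          apply hz
          rw [Equiv.Perm.mul_apply, hz', hfix z hz']
      have h2 := ih _ hlt (g * π) rfl (odd_mul hg hodd)
      have h3 := CC_mul hp (odd_inv hg) (odd_mul hg hodd) hgC h2
      rwa [inv_mul_cancel_left] at h3
    have hpx0 : π x ≠ 0 := odd_ne_zero hp hodd hx0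
    by_cases h2 : π x = -x
    · refine step (swap x (-x)) (odd_flip x) ?_ ?_ ?_
      · rw [swap_inv]; exact CC_flip hp hx
      · rw [h2, swap_apply_right]
      · intro z hz
        rw [swap_apply_of_ne_of_ne]
        · rintro rfl; exact hpx hz
        · rintro rfl
          rw [hodd] at hz
          exact hpx (neg_injective hz)
    · have hxy : x ≠ -π x := fun h => h2 (by rw [eq_comm]; rw [neg_eq_iff_eq_neg]; exact h)
      have hxy' : x ≠ π x := fun h => hpx h.symm
      have hx' : x ≠ -x := fun h => neg_ne hp hx0 h.symm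
      have hy' : π x ≠ -π x := fun h => neg_ne hp hpx0 h.symm
      have hinv : (dt x (π x))⁻¹ = dt x (π x) := by
        unfold dt
        rw [mul_inv_rev, swap_inv, swap_inv]
        have hd : Disjoint (swap x (π x)) (swap (-x) (-π x)) := by
          intro z
          by_cases h5 : z = x
          · right; subst h5; exact swap_apply_of_ne_of_ne hx' hxy
          · by_cases h6 : z = π x
            · right; subst h6; exact swap_apply_of_ne_of_ne h2 hy'
            · left; exact swap_apply_of_ne_of_ne h5 h6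
        exact hd.commute.symm.eq
      refine step (dt x (π x)) (odd_dt hp hx0 hpx0 hxy) ?_ ?_ ?_
      · rw [hinv]; exact CC_dt hp hx hpx0 hxy hxy'
      · exact dt_y h2 hy'
      · intro z hz
        apply dt_ne
        · rintro rfl; exact hpx hz
        · rintro rfl; exact hpx (π.injective hz)
        · rintro rfl
          rw [hodd] at hz
          exact hpx (neg_injective hz)
        · rintro rfl
          rw [hodd] at hz
          exact hpx (π.injective (neg_injective hz))

open Classical in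
/-- the number of odd permutations is prime to `p` -/
theorem card_odd (hp : p ≠ 2) :
    ((((Finset.univ : Finset (Perm (ZMod p))).filter fun π => Odd' π).card : ℕ) : ZMod p) ≠ 0 := by
  intro h
  rw [ZMod.natCast_eq_zero_iff] at h
  let G : Subgroup (Perm (ZMod p)) :=
    { carrier := {π | Odd' π}
      mul_mem' := fun h1 h2 => odd_mul h1 h2
      one_mem' := fun x => rfl
      inv_mem' := fun h => odd_inv h }
  have hG : p ∣ Nat.card G := by
    have : Nat.card G = ((Finset.univ : Finset (Perm (ZMod p))).filter fun π => Odd' π).card :=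
      Nat.subtype_card _ (fun x => by
        rw [Finset.mem_filter]
        exact ⟨fun h => h.2, fun h => ⟨Finset.mem_univ _, h⟩⟩)
    rw [this]; exact h
  obtain ⟨σ, hσ⟩ := exists_prime_orderOf_dvd_card' (G := G) p hG
  have hσ' : orderOf (σ : Perm (ZMod p)) = p := by rw [Subgroup.orderOf_coe]; exact hσ
  obtain ⟨n, hn⟩ := cycleType_prime_order (σ := (σ : Perm (ZMod p)))
    (by rw [hσ']; exact Fact.out)
  have h1 : (σ : Perm (ZMod p)).support.card = (n + 1) * p := by
    rw [← sum_cycleType, hn, Multiset.sum_replicate, smul_eq_mul, hσ']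
  have h2 : (0 : ZMod p) ∉ (σ : Perm (ZMod p)).support := by
    rw [Equiv.Perm.mem_support]
    have := odd_zero hp (π := (σ : Perm (ZMod p))) σ.2
    simp [this]
  have h3 : (σ : Perm (ZMod p)).support.card < (Finset.univ : Finset (ZMod p)).card := by
    apply Finset.card_lt_card
    rw [Finset.ssubset_univ_iff]
    intro h
    rw [h] at h2
    exact h2 (Finset.mem_univ _)
  rw [Finset.card_univ, ZMod.card, h1] at h3
  have hp' := (Fact.out : p.Prime).pos
  nlinarith

end Starter

open Starter in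
theorem Tst_ne (p : ℕ) [Fact p.Prime] (hp : p ≠ 2) : ((Tst p : ℤ) : ZMod p) ≠ 0 := by
  classical
  intro h
  have h1 := Tst_mul (p := p)
  rw [h, zero_mul, sum_Ua hp, sum_det hp] at h1
  have h2 : ∀ π : Perm (ZMod p), (((sign π : ℤˣ) : ℤ) : ZMod p) *
      ((0 : ZMod p) ^ (π 0).val * ∏ d : HH p, gg (d : ZMod p) (π (-d)) (π d)) =
      if Odd' π then (-1) ^ (HH p).card * (∏ d ∈ HH p, d) * ∏ d ∈ HH p, d else 0 := by
    intro π
    split_ifs with hπ
    · rw [term_odd hp π hπ]
      have := CC_all hp _ π rfl hπ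
      unfold CC at this
      rw [← this]
      ring
    · rw [term_zero hp π hπ, mul_zero]
  rw [Finset.sum_congr rfl fun π _ => h2 π, ← Finset.sum_filter, Finset.sum_const,
    nsmul_eq_mul] at h1
  have h3 := card_odd (p := p) hp
  have h4 := P0_ne (p := p)
  have h5 : ((-1 : ZMod p)) ^ (HH p).card ≠ 0 := pow_ne_zero _ (by simp)
  exact (mul_ne_zero h3 (mul_ne_zero (mul_ne_zero h5 h4) h4)) h1.symm

end Pool.Agent.H162R2.LEC
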