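import Pool.Agent.H162R2.LEC.Bridge
import Pool.Agent.H162R2.LEC.Starter
import Pool.Agent.H921R2.LEC.CircA
import Pool.Agent.H921R2.LEC.CircB
import Pool.Agent.H921R2.LEC.TwoP

/-!
# Edge choosability of the graphs `gD p D`
-/

set_option autoImplicit false
set_option linter.unusedSectionVars false

namespace Pool.Agent.H162R2.LEC

open Finset Equiv Equiv.Perm Pool.Agent.H921R2.LEC

variable (p : ℕ) [hp : Fact p.Prime]

theorem Ssum_gD_ne (hp2 : p ≠ 2) (D : Finset (ZMod p)) (d0 : ZMod p)
    (hd0 : d0 ∈ D) (hD : D ≠ Finset.univ) : Ssum (gD p D) (gGam p d0) ≠ 0 := by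
  intro h0
  have h1 := Ssum_gD_mod p hp2 D d0 hd0
  obtain ⟨ε, hε, h2⟩ := S1_eq p hp2 D d0 hd0
  have hT := Tst_ne p hp2
  rw [h0, h2, zero_sub, dvd_neg] at h1
  have hpp : Prime (p : ℤ) := Nat.prime_iff_prime_int.1 hp.out
  have hp0 : (p : ℤ) ≠ 0 := hpp.ne_zero
  have h3 : ((p : ℤ) - 1) * (ε * p * (D.card).factorial * Tst p ^ 2) =
      p * (((p : ℤ) - 1) * (ε * ((D.card).factorial * Tst p ^ 2))) := by ring
  rw [h3, pow_two] at h1
  have h4 := (mul_dvd_mul_iff_left hp0).1 h1
  have hcard : D.card < p := by
    have h5 : D.card < Fintype.card (ZMod p) := by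
      rw [← Finset.card_univ]
      exact Finset.card_lt_card (Finset.ssubset_univ_iff.2 hD)
    rwa [ZMod.card] at h5
  rcases hpp.dvd_or_dvd h4 with h5 | h5
  · have h6 : (p : ℤ) ∣ 1 := by
      have := dvd_sub (dvd_refl (p : ℤ)) h5
      simpa using this
    exact hpp.not_isUnit (isUnit_of_dvd_one h6)
  · rcases hpp.dvd_or_dvd h5 with h6 | h6
    · have h7 : IsUnit ε := by
        rcases hε with h | h <;> rw [h]
        · exact isUnit_one
        · exact isUnit_one.neg
      exact hpp.not_isUnit (isUnit_of_dvd_unit h6 h7)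
    · rcases hpp.dvd_or_dvd h6 with h7 | h7
      · have h8 : p ∣ (D.card).factorial := by exact_mod_cast h7
        have := (hp.out.dvd_factorial).1 h8
        omega
      · have h8 := hpp.dvd_of_dvd_pow h7
        apply hT
        rw [ZMod.intCast_zmod_eq_zero_iff_dvd]
        exact h8

theorem degree_gD (D : Finset (ZMod p)) : (gD p D).IsRegularOfDegree (p - 1 + D.card) := by
  classical
  intro v
  have h1 : (gD p D).neighborFinset v =
      ((univ.erase v.1).image (fun x => (x, v.2))) ∪
        D.image (fun b => (if v.2 = false then v.1 + b else v.1 - b, !v.2)) := by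
    ext ⟨y, b⟩
    obtain ⟨x, a⟩ := v
    rw [SimpleGraph.mem_neighborFinset]
    simp only [gD, Finset.mem_union, Finset.mem_image,
      Finset.mem_erase, Finset.mem_univ, and_true, Prod.mk.injEq, ne_eq]
    constructor
    · rintro ⟨hne, h | h | h⟩
      · left
        refine ⟨y, ?_, rfl, h⟩
        intro hxy
        exact hne ⟨hxy.symm, h⟩
      · right
        obtain ⟨rfl, rfl, h3⟩ := h
        exact ⟨y - x, h3, by simp, by simp⟩
      · right
        obtain ⟨rfl, rfl, h3⟩ := h
        exact ⟨x - y, h3, by simp, by simp⟩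
    · rintro (⟨z, h1, rfl, rfl⟩ | ⟨z, h1, h2, rfl⟩)
      · exact ⟨fun h => h1 h.1.symm, Or.inl rfl⟩
      · refine ⟨fun h => by cases a <;> simp at h, Or.inr ?_⟩
        cases a
        · left
          simp only [if_true] at h2
          subst h2
          simp [h1]
        · right
          simp only [Bool.true_eq_false, if_false] at h2
          subst h2
          simp [h1]
  rw [← SimpleGraph.card_neighborFinset_eq_degree, h1, Finset.card_union_of_disjoint,
    Finset.card_image_of_injective, Finset.card_image_of_injective, Finset.card_erase_of_mem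
    (Finset.mem_univ _), Finset.card_univ, ZMod.card]
  · intro x y h
    have h2 := (Prod.ext_iff.1 h).1
    simp only at h2
    split_ifs at h2
    · exact add_left_cancel h2
    · exact sub_right_injective h2
  · intro x y h
    exact (Prod.ext_iff.1 h).1
  · rw [Finset.disjoint_left]
    rintro ⟨y, b⟩ h2 h3
    rw [Finset.mem_image] at h2 h3
    obtain ⟨z, _, h4⟩ := h2
    obtain ⟨z', _, h5⟩ := h3
    have h6 := (Prod.ext_iff.1 h4).2
    have h7 := (Prod.ext_iff.1 h5).2
    simp only at h6 h7
    rw [← h6] at h7
    cases hv : v.2 <;> rw [hv] at h7 <;> simp at h7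

theorem gGam_bij (D : Finset (ZMod p)) (d0 : ZMod p) (hd0 : d0 ∈ D) (v : ZMod p × Bool) :
    Set.BijOn (gGam p d0 v) {u | ¬ (gD p D).Adj v u}
      ((insert (d0, true) ((univ \ D).image (fun b => (b, true))) :
        Finset (ZMod p × Bool)) : Set (ZMod p × Bool)) := by
  obtain ⟨x, a⟩ := v
  -- the non-neighbours of a vertex
  have hnon : ∀ u : ZMod p × Bool, ¬ (gD p D).Adj (x, a) u → u = (x, a) ∨
      (u.2 = !a ∧ (if a = false then u.1 - x else x - u.1) ∉ D) := by
    rintro ⟨y, b⟩ h
    by_cases hu : (y, b) = (x, a)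
    · exact Or.inl hu
    · right
      simp only [gD, not_and_or, not_or, ne_eq, not_not] at h
      rcases h with h | ⟨h1, h2, h3⟩
      · exact absurd h.symm hu
      · cases a <;> cases b <;> simp_all
  refine ⟨?_, ?_, ?_⟩
  · intro u hu
    rw [Finset.mem_coe, Finset.mem_insert, Finset.mem_image]
    rcases hnon u hu with h | ⟨h1, h2⟩
    · left
      rw [h]
      simp [gGam]
    · right
      obtain ⟨y, b⟩ := u
      simp only at h1 h2
      subst h1
      have hne : ¬ ((x, a) = (y, !a)) := by
        intro h
        have := (Prod.ext_iff.1 h).2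
        cases a <;> simp at this
      unfold gGam
      rw [if_neg hne]
      cases a
      · exact ⟨y - x, by simpa using h2, by simp⟩
      · exact ⟨x - y, by simpa using h2, by simp⟩
  · intro u hu w hw huw
    rcases hnon u hu with h | ⟨h1, h2⟩ <;> rcases hnon w hw with h' | ⟨h1', h2'⟩
    · rw [h, h']
    · exfalso
      subst h
      have hne : ¬ ((x, a) = w) := by
        intro h
        rw [← h] at h1'
        cases a <;> simp at h1'
      unfold gGam at huw
      rw [if_pos rfl, if_neg hne] at huw
      cases a
      · simp only [if_true, Prod.mk.injEq, and_true] at huw h2'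
        rw [← huw] at h2'
        exact h2' hd0
      · simp only [Bool.true_eq_false, if_false, Prod.mk.injEq, and_true] at huw h2'
        rw [← huw] at h2'
        exact h2' hd0
    · exfalso
      subst h'
      have hne : ¬ ((x, a) = u) := by
        intro h
        rw [← h] at h1
        cases a <;> simp at h1
      unfold gGam at huw
      rw [if_pos rfl, if_neg hne] at huw
      cases a
      · simp only [if_true, Prod.mk.injEq, and_true] at huw h2
        rw [huw] at h2
        exact h2 hd0
      · simp only [Bool.true_eq_false, if_false, Prod.mk.injEq, and_true] at huw h2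
        rw [huw] at h2
        exact h2 hd0
    · have hne : ¬ ((x, a) = u) := by
        intro h
        rw [← h] at h1
        cases a <;> simp at h1
      have hne' : ¬ ((x, a) = w) := by
        intro h
        rw [← h] at h1'
        cases a <;> simp at h1'
      unfold gGam at huw
      rw [if_neg hne, if_neg hne'] at huw
      apply Prod.ext _ (h1.trans h1'.symm)
      cases a
      · simp only [if_true, Prod.mk.injEq, and_true] at huw
        exact sub_left_injective huw
      · simp only [Bool.true_eq_false, if_false, Prod.mk.injEq, and_true] at huw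
        exact sub_right_injective huw
  · intro c hc
    rw [Finset.mem_coe, Finset.mem_insert, Finset.mem_image] at hc
    rcases hc with rfl | ⟨b, hb, rfl⟩
    · exact ⟨(x, a), (gD p D).loopless.irrefl _, by simp [gGam]⟩
    · simp only [Finset.mem_sdiff, Finset.mem_univ, true_and] at hb
      cases a
      · refine ⟨(x + b, true), ?_, ?_⟩
        · simp [gD, hb]
        · simp [gGam]
      · refine ⟨(x - b, false), ?_, ?_⟩
        · simp [gD, hb]
        · simp [gGam]

theorem gD_univ : gD p (Finset.univ) = ⊤ := by
  ext ⟨x, a⟩ ⟨y, b⟩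
  rw [SimpleGraph.top_adj]
  simp only [gD, Finset.mem_univ, and_true]
  constructor
  · exact fun h => h.1
  · intro h
    refine ⟨h, ?_⟩
    cases a <;> cases b <;> simp

/-- The graphs `gD p D` are edge choosable from lists of the size of the degree. -/
theorem choosable_gD (hp2 : p ≠ 2) (D : Finset (ZMod p)) (hD : D.Nonempty) :
    Choosable (gD p D) (p - 1 + D.card) := by
  classical
  by_cases hDu : D = Finset.univ
  · subst hDu
    have hp1 : 1 < p := hp.out.one_lt
    have h10 : (1 : ZMod p) ≠ 0 := one_ne_zero
    have h1 : Ssum (gD p (Finset.univ.erase 0)) (gGam p 1) ≠ 0 := by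
      apply Ssum_gD_ne p hp2 _ _ (Finset.mem_erase.2 ⟨h10, Finset.mem_univ _⟩)
      intro h
      have := h.symm ▸ Finset.mem_univ (0 : ZMod p)
      simp at this
    have h2 := Ssum_top p hp2 h1
    rw [gD_univ]
    refine bridge (⊤ : SimpleGraph (ZMod p × Bool)) (fun _ _ => (1, true)) {(1, true)} _ ?_ ?_ ?_
    · intro v
      have h3 := SimpleGraph.complete_graph_degree v
      rw [h3, Fintype.card_prod, ZMod.card, Fintype.card_bool, Finset.card_univ, ZMod.card]
      omega
    · intro v
      have h3 : {u | ¬ (⊤ : SimpleGraph (ZMod p × Bool)).Adj v u} = {v} := by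
        ext u
        simp [eq_comm]
      rw [h3, Finset.coe_singleton]
      exact Set.bijOn_singleton.2 rfl
    · convert h2
  · obtain ⟨d0, hd0⟩ := hD
    exact bridge (gD p D) (gGam p d0) _ _ (degree_gD p D) (gGam_bij p D d0 hd0)
      (Ssum_gD_ne p hp2 D d0 hd0 hDu)

/-- From a choosable graph to its subgraphs with a vertex of full degree. -/
theorem listEdge_of_embed {W V : Type} (H : SimpleGraph W) (d : ℕ) (hH : Choosable H d)
    [Fintype V] (G : SimpleGraph V) (φ : V → W) (hφ : Function.Injective φ)
    (hadj : ∀ u w, G.Adj u w → H.Adj (φ u) (φ w)) (v : V) (hv : d ≤ (G.neighborSet v).ncard)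
    (k : ℕ) : G.lineGraph.Colorable k ↔
      ∀ L : G.edgeSet → Finset ℕ, (∀ e, k ≤ (L e).card) →
        ∃ f : G.edgeSet → ℕ, (∀ e, f e ∈ L e) ∧
          ∀ e e', G.lineGraph.Adj e e' → f e ≠ f e' := by
  classical
  constructor
  · intro hcol L hL
    have hk : d ≤ k := by
      obtain ⟨C⟩ := hcol
      let g : {w : V // G.Adj v w} → Fin k := fun w => C ⟨s(v, w.1), w.2⟩
      have hg : Function.Injective g := by
        intro w w' hww
        by_contra hne
        have hne2 : w.1 ≠ w'.1 := fun h => hne (Subtype.ext h)
        have hadj : G.lineGraph.Adj ⟨s(v, w.1), w.2⟩ ⟨s(v, w'.1), w'.2⟩ := by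
          rw [SimpleGraph.lineGraph_adj_iff_exists]
          refine ⟨?_, v, ?_, ?_⟩
          · intro h
            have h2 := congrArg Subtype.val h
            simp only at h2
            rcases Sym2.eq_iff.1 h2 with ⟨_, h3⟩ | ⟨h3, _⟩
            · exact hne2 h3
            · have h4 := w'.2
              rw [← h3] at h4
              exact G.loopless.irrefl _ h4
          · exact Sym2.mem_mk_left _ _
          · exact Sym2.mem_mk_left _ _
        exact C.valid hadj hww
      have h1 := Fintype.card_le_of_injective g hg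
      rw [Fintype.card_fin] at h1
      have h2 : (G.neighborSet v).ncard = Fintype.card {w : V // G.Adj v w} := by
        rw [← Nat.card_coe_set_eq, Nat.card_eq_fintype_card]
        rfl
      omega
    let L' : H.edgeSet → Finset ℕ := fun e =>
      if h : ∃ e0 : G.edgeSet, Sym2.map φ e0.1 = e.1 then L h.choose else Finset.range k
    have hL' : ∀ e, d ≤ (L' e).card := by
      intro e
      simp only [L']
      split_ifs with h
      · exact hk.trans (hL _)
      · rw [Finset.card_range]
        exact hk
    obtain ⟨f, hf1, hf2⟩ := hH L' hL'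
    have hmem : ∀ e : G.edgeSet, Sym2.map φ e.1 ∈ H.edgeSet := by
      rintro ⟨e, he⟩
      induction e using Sym2.ind with
      | _ a b => exact hadj a b he
    refine ⟨fun e => f ⟨Sym2.map φ e.1, hmem e⟩, ?_, ?_⟩
    · intro e
      have h1 := hf1 ⟨Sym2.map φ e.1, hmem e⟩
      have h2 : ∃ e0 : G.edgeSet, Sym2.map φ e0.1 = Sym2.map φ e.1 := ⟨e, rfl⟩
      have h3 : L' ⟨Sym2.map φ e.1, hmem e⟩ = L e := by
        simp only [L']
        rw [dif_pos h2]
        congr 1
        exact Subtype.ext (Sym2.map.injective hφ h2.choose_spec)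
      rwa [h3] at h1
    · intro e e' he
      apply hf2
      rw [SimpleGraph.lineGraph_adj_iff_exists] at he ⊢
      obtain ⟨hne, u, hu, hu'⟩ := he
      refine ⟨?_, φ u, ?_, ?_⟩
      · intro h
        apply hne
        have h2 := congrArg Subtype.val h
        exact Subtype.ext (Sym2.map.injective hφ h2)
      · exact Sym2.mem_map.2 ⟨u, hu, rfl⟩
      · exact Sym2.mem_map.2 ⟨u, hu', rfl⟩
  · intro h
    obtain ⟨f, hf1, hf2⟩ := h (fun _ => Finset.range k) (by simp)
    refine ⟨SimpleGraph.Coloring.mk (fun e => (⟨f e, Finset.mem_range.1 (hf1 e)⟩ : Fin k)) ?_⟩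
    intro e e' hadj heq
    exact hf2 e e' hadj (Fin.mk.inj_iff.1 heq)

end Pool.Agent.H162R2.LEC
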