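import Pool.Agent.H604R2.LEC.AT

/-!
# The Alon-Tarsi method for edge colourings of regular (multi)graphs, over the rationals
-/

set_option autoImplicit false
set_option linter.unusedSectionVars false

namespace Pool.Agent.H162R2.LEC

open MvPolynomial Finset Pool.Agent.H604R2.LEC Pool.Agent.Helper929

section sg

variable {J : Type} [Fintype J] [DecidableEq J]

/-- The sign of a self-map (zero if it is not a permutation), as a determinant. -/
def sg (f : J → J) : ℤ := (Matrix.of fun a j => if a = f j then (1 : ℤ) else 0).det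

theorem sg_conj {J' : Type} [Fintype J'] [DecidableEq J'] (κ : J ≃ J') (f : J → J) :
    sg (fun i => κ (f (κ.symm i))) = sg f := by
  unfold sg
  rw [← Matrix.det_submatrix_equiv_self κ]
  congr 1
  ext a j
  rw [Matrix.submatrix_apply, Matrix.of_apply, Matrix.of_apply]
  simp

theorem sg_perm (σ : Equiv.Perm J) : sg (fun j => σ j) = (Equiv.Perm.sign σ : ℤ) := by
  unfold sg
  have h := Matrix.det_permutation (R := ℤ) σ
  rw [← Matrix.det_transpose] at h
  have h2 : ((Equiv.Perm.sign σ : ℤ) : ℤ) = (Equiv.Perm.sign σ : ℤ) := rfl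
  rw [Int.cast_id] at h
  rw [← h]
  congr 1
  ext a j
  rw [Matrix.transpose_apply, Matrix.of_apply]
  simp [Equiv.Perm.permMatrix, PEquiv.toMatrix_apply, Equiv.toPEquiv_apply, eq_comm]

theorem sg_eq_zero {f : J → J} (h : ¬ Function.Injective f) : sg f = 0 := by
  unfold sg
  rw [Function.Injective] at h
  push Not at h
  obtain ⟨a, b, hab, hne⟩ := h
  apply Matrix.det_zero_of_column_eq hne
  intro k
  rw [Matrix.of_apply, Matrix.of_apply, hab]

end sg

section at'

variable {E V : Type} [Fintype E] [DecidableEq E] [Fintype V]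

/-- The line graph polynomial. -/
noncomputable def PG {d : ℕ} (ed : V → Fin d → E) : MvPolynomial E ℚ :=
  ∏ v : V, (Matrix.vandermonde (fun j : Fin d => (X (ed v j) : MvPolynomial E ℚ))).det

theorem eval_PG {d : ℕ} (ed : V → Fin d → E) (φ : E → ℚ) :
    eval φ (PG ed) = ∏ v : V, (Matrix.vandermonde (fun j : Fin d => φ (ed v j))).det := by
  unfold PG
  rw [map_prod]
  apply Finset.prod_congr rfl
  intro v _
  rw [Matrix.det_vandermonde, Matrix.det_vandermonde, map_prod]
  apply Finset.prod_congr rfl
  intro i _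
  rw [map_prod]
  apply Finset.prod_congr rfl
  intro j _
  rw [map_sub, eval_X, eval_X]

theorem totalDegree_PG {d : ℕ} (ed : V → Fin d → E) :
    (PG ed).totalDegree ≤ Fintype.card V * Fintype.card (Ed d) := by
  have h1 : ∀ v : V, ((Matrix.vandermonde (fun j : Fin d => (X (ed v j) :
      MvPolynomial E ℚ))).det).totalDegree ≤ Fintype.card (Ed d) := by
    intro v
    rw [Matrix.det_vandermonde]
    rw [← prod_Ed (fun i j => (X (ed v j) : MvPolynomial E ℚ) - X (ed v i))]
    refine (totalDegree_finsetProd _ _).trans ?_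
    rw [← Finset.card_univ, Finset.card_eq_sum_ones]
    apply Finset.sum_le_sum
    intro e _
    refine (totalDegree_sub _ _).trans (max_le ?_ ?_)
    · exact (totalDegree_monomial_le _ _).trans (by simp)
    · exact (totalDegree_monomial_le _ _).trans (by simp)
  unfold PG
  refine (totalDegree_finsetProd _ _).trans ?_
  refine (Finset.sum_le_sum (fun v _ => h1 v)).trans ?_
  simp

theorem two_card {J : Type} [Fintype J] (ed : V → J → E)
    (h2 : ∀ e, #{x : V × J | ed x.1 x.2 = e} = 2) :
    Fintype.card V * Fintype.card J = 2 * Fintype.card E := by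
  have h := Finset.card_eq_sum_card_fiberwise (s := (univ : Finset (V × J))) (t := (univ : Finset E))
    (f := fun x => ed x.1 x.2) (fun _ _ => Finset.mem_coe.2 (Finset.mem_univ _))
  rw [Finset.card_univ, Fintype.card_prod] at h
  rw [h, Finset.sum_congr rfl (fun e _ => h2 e)]
  simp [mul_comm]

theorem card_class {J : Type} [Fintype J] [DecidableEq J] (ed : V → J → E)
    (h2 : ∀ e, #{x : V × J | ed x.1 x.2 = e} = 2) (c : E → J)
    (hc : ∀ v, Function.Injective (fun j => c (ed v j))) (a : J) :
    #{e | c e = a} = Fintype.card V / 2 := by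
  have h1 : #{x : V × J | c (ed x.1 x.2) = a} = 2 * #{e | c e = a} := by
    have h := Finset.card_eq_sum_card_fiberwise (s := ({x : V × J | c (ed x.1 x.2) = a} : Finset (V × J)))
      (t := ({e | c e = a} : Finset E)) (f := fun x => ed x.1 x.2) (by
        intro x hx
        simpa using hx)
    rw [h]
    have h3 : ∀ e ∈ ({e | c e = a} : Finset E),
        #{x ∈ ({x : V × J | c (ed x.1 x.2) = a} : Finset (V × J)) | ed x.1 x.2 = e} = 2 := by
      intro e he
      rw [← h2 e]
      congr 1
      ext x
      simp only [Finset.mem_filter, Finset.mem_univ, true_and] at he ⊢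
      constructor
      · exact fun h => h.2
      · intro h
        exact ⟨by rw [h]; exact he, h⟩
    rw [Finset.sum_congr rfl h3]
    simp [mul_comm]
  have h4 : #{x : V × J | c (ed x.1 x.2) = a} = Fintype.card V := by
    have hb : ∀ v, ∃! j, c (ed v j) = a := by
      intro v
      have := (Finite.injective_iff_bijective.1 (hc v))
      exact this.existsUnique a
    choose g hg1 hg2 using hb
    rw [← Finset.card_univ]
    symm
    apply Finset.card_bij (fun v _ => (v, g v))
    · intro v _
      simpa using hg1 v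
    · intro v _ w _ h
      exact (Prod.ext_iff.1 h).1
    · rintro ⟨v, j⟩ hx
      simp only [Finset.mem_filter, Finset.mem_univ, true_and] at hx
      exact ⟨v, Finset.mem_univ _, by rw [← hg2 v j hx]⟩
  omega

theorem coeff_PG_ne {k : ℕ} (ed : V → Fin (k + 1) → E)
    (h2 : ∀ e, #{x : V × Fin (k + 1) | ed x.1 x.2 = e} = 2)
    (hN : ∑ c : E → Fin (k + 1), ∏ v, sg (fun j => c (ed v j)) ≠ 0) :
    (PG ed).totalDegree ≤ Fintype.card E * k ∧ coeff (ex E (k + 1)) (PG ed) ≠ 0 := by
  classical
  have hdeg : (PG ed).totalDegree ≤ Fintype.card E * (k + 1 - 1) := by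
    refine (totalDegree_PG ed).trans (le_of_eq ?_)
    have h3 := two_card ed h2
    have h4 := card_Ed k
    rw [Fintype.card_fin] at h3
    rw [Nat.add_sub_cancel]
    have h5 : 2 * (Fintype.card V * Fintype.card (Ed (k + 1))) = 2 * (Fintype.card E * k) := by
      calc 2 * (Fintype.card V * Fintype.card (Ed (k + 1))) =
          Fintype.card V * (2 * Fintype.card (Ed (k + 1))) := by ring
        _ = Fintype.card V * (k + 1) * k := by rw [← h4]; ring
        _ = 2 * Fintype.card E * k := by rw [h3]
        _ = _ := by ring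
    omega
  refine ⟨hdeg, ?_⟩
  let s : Fin (k + 1) → ℚ := fun a => ((a : ℕ) : ℚ)
  have hs : Function.Injective s := by
    intro a b hab
    exact Fin.ext (Nat.cast_injective hab)
  rw [coeff_formula s (Nat.succ_pos k) hs _ hdeg]
  have h1 : ∀ c : E → Fin (k + 1), (∏ e, lam s (c e)) * eval (fun e => s (c e)) (PG ed) =
      ((Matrix.vandermonde s).det ^ (Fintype.card V) * ∏ a, lam s a ^ (Fintype.card V / 2)) *
        ((∏ v : V, sg (fun j => c (ed v j)) : ℤ) : ℚ) := by
    intro c
    rw [eval_PG]
    have h2' : ∏ v : V, (Matrix.vandermonde (fun j : Fin (k + 1) => s (c (ed v j)))).det =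
        ((∏ v : V, sg (fun j => c (ed v j)) : ℤ) : ℚ) *
          (Matrix.vandermonde s).det ^ (Fintype.card V) := by
      rw [Finset.prod_congr rfl (fun v _ => vandermonde_comp s (fun j => c (ed v j))),
        Finset.prod_mul_distrib, Int.cast_prod]
      simp only [Finset.prod_const, Finset.card_univ]
      rfl
    rw [h2']
    by_cases hz : (∏ v : V, sg (fun j => c (ed v j)) : ℤ) = 0
    · rw [hz]
      simp
    · have hinj : ∀ v, Function.Injective (fun j => c (ed v j)) := by
        intro v
        by_contra hv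
        exact hz (Finset.prod_eq_zero (Finset.mem_univ v) (sg_eq_zero hv))
      have h3 : ∏ e, lam s (c e) = ∏ a, lam s a ^ (Fintype.card V / 2) := by
        rw [← Finset.prod_fiberwise' univ c (fun a => lam s a)]
        apply Finset.prod_congr rfl
        intro a _
        rw [Finset.prod_const, card_class ed h2 c hinj a]
      rw [h3]
      ring
  simp_rw [h1]
  rw [← Finset.mul_sum, ← Int.cast_sum]
  refine mul_ne_zero (mul_ne_zero (pow_ne_zero _ ?_) ?_) (Int.cast_ne_zero.2 hN)
  · rw [Ne, Matrix.det_vandermonde_eq_zero_iff]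
    rintro ⟨i, j, hij, hne⟩
    exact hne (hs hij)
  · rw [Finset.prod_ne_zero_iff]
    intro a _
    exact pow_ne_zero _ (lam_ne s hs a)

theorem at_fin {k : ℕ} (ed : V → Fin (k + 1) → E)
    (h2 : ∀ e, #{x : V × Fin (k + 1) | ed x.1 x.2 = e} = 2)
    (hN : ∑ c : E → Fin (k + 1), ∏ v, sg (fun j => c (ed v j)) ≠ 0)
    (L : E → Finset ℕ) (hL : ∀ e, k + 1 ≤ (L e).card) :
    ∃ f : E → ℕ, (∀ e, f e ∈ L e) ∧ ∀ v, Function.Injective (fun j => f (ed v j)) := by
  classical
  obtain ⟨hle, hc⟩ := coeff_PG_ne ed h2 hN
  have hdeg : (ex E (k + 1)).degree = Fintype.card E * k := by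
    rw [Finsupp.degree_eq_sum]
    change ∑ _e : E, k = _
    simp
  have htd : (PG ed).totalDegree = (ex E (k + 1)).degree := by
    apply le_antisymm
    · rw [hdeg]
      exact hle
    · exact le_totalDegree (mem_support_iff.2 hc)
  have hinj : Function.Injective (fun n : ℕ => (n : ℚ)) := Nat.cast_injective
  obtain ⟨g, hg1, hg2⟩ := combinatorial_nullstellensatz_exists_eval_nonzero (PG ed)
    (ex E (k + 1)) hc htd (fun e => (L e).image (fun n : ℕ => (n : ℚ)))
    (by
      intro e
      rw [Finset.card_image_of_injective _ hinj]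
      change k < _
      exact hL e)
  have h3 : ∀ e, ∃ n ∈ L e, ((n : ℕ) : ℚ) = g e := by
    intro e
    exact Finset.mem_image.1 (hg1 e)
  choose f hf1 hf2 using h3
  refine ⟨f, hf1, ?_⟩
  intro v i j hfe
  by_contra hij
  simp only at hfe
  rw [eval_PG, Finset.prod_ne_zero_iff] at hg2
  apply hg2 v (Finset.mem_univ v)
  rw [Matrix.det_vandermonde_eq_zero_iff]
  refine ⟨i, j, ?_, hij⟩
  rw [← hf2, ← hf2, hfe]

/-- The Alon-Tarsi lemma for edge colourings of regular graphs. `V` is the set of vertices, `J` a set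
of colours of size the degree, `ed v` an enumeration of the edges at `v`. -/
theorem at_main {J : Type} [Fintype J] [DecidableEq J] (ed : V → J → E)
    (h2 : ∀ e, #{x : V × J | ed x.1 x.2 = e} = 2)
    (hN : ∑ c : E → J, ∏ v, sg (fun j => c (ed v j)) ≠ 0)
    (L : E → Finset ℕ) (hL : ∀ e, Fintype.card J ≤ (L e).card) :
    ∃ f : E → ℕ, (∀ e, f e ∈ L e) ∧ ∀ v, Function.Injective (fun j => f (ed v j)) := by
  classical
  rcases Nat.eq_zero_or_pos (Fintype.card J) with h0 | h0
  · have : IsEmpty J := Fintype.card_eq_zero_iff.1 h0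
    have : IsEmpty E := by
      rw [← Fintype.card_eq_zero_iff]
      have := two_card ed h2
      rw [h0] at this
      omega
    exact ⟨fun _ => 0, fun e => (IsEmpty.false e).elim, fun v j => (IsEmpty.false j).elim⟩
  · obtain ⟨k, hk⟩ : ∃ k, Fintype.card J = k + 1 := ⟨Fintype.card J - 1, by omega⟩
    let κ : J ≃ Fin (k + 1) := Fintype.equivFinOfCardEq hk
    have h3 : ∀ e, #{x : V × Fin (k + 1) | ed x.1 (κ.symm x.2) = e} = 2 := by
      intro e
      rw [← h2 e]
      symm
      apply Finset.card_bij (fun x _ => (x.1, κ x.2))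
      · intro x hx
        simpa using hx
      · intro x _ y _ h
        rw [Prod.mk.injEq] at h
        exact Prod.ext h.1 (κ.injective h.2)
      · rintro ⟨v, i⟩ hx
        refine ⟨(v, κ.symm i), ?_, ?_⟩
        · simpa using hx
        · simp
    have h4 : ∑ c : E → Fin (k + 1), ∏ v, sg (fun j => c (ed v (κ.symm j))) =
        ∑ c : E → J, ∏ v, sg (fun j => c (ed v j)) := by
      symm
      refine Fintype.sum_equiv (Equiv.arrowCongr (Equiv.refl E) κ) _ _ ?_
      intro c
      apply Finset.prod_congr rfl
      intro v _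
      rw [← sg_conj κ]
      rfl
    obtain ⟨f, hf1, hf2⟩ := at_fin (fun v j => ed v (κ.symm j)) h3 (by rw [h4]; exact hN) L
      (fun e => by rw [← hk]; exact hL e)
    refine ⟨f, hf1, ?_⟩
    intro v i j hij
    have := hf2 v (a₁ := κ i) (a₂ := κ j) (by simpa using hij)
    exact κ.injective this

end at'

end Pool.Agent.H162R2.LEC
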