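import Pool.Agent.H162R2.LEC.AT
import Pool.Agent.H921R2.LEC.Defs

/-!
# From signed sums of families of rows to edge choosability
-/

set_option autoImplicit false
set_option linter.unusedSectionVars false

namespace Pool.Agent.H162R2.LEC

open Finset Equiv Equiv.Perm Pool.Agent.H921R2.LEC

section bridge

variable {V : Type} [Fintype V] [DecidableEq V] (G : SimpleGraph V) [DecidableRel G.Adj]
  (γ : V → V → V) (C0 : Finset V)

/-- row function of a colouring -/
def rowf (c : G.edgeSet → {x : V // x ∉ C0}) (v : V) (u : V) : V :=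
  if h : G.Adj v u then (c ⟨s(v, u), h⟩).1 else γ v u

/-- reference row function -/
def reff (nb : ∀ v, {x : V // x ∉ C0} ≃ {u : V // G.Adj v u}) (v : V) (u : V) : V :=
  if h : G.Adj v u then ((nb v).symm ⟨u, h⟩).1 else γ v u

theorem reff_bij (hγ : ∀ v, Set.BijOn (γ v) {u | ¬ G.Adj v u} (C0 : Set V))
    (nb : ∀ v, {x : V // x ∉ C0} ≃ {u : V // G.Adj v u}) (v : V) :
    Function.Bijective (reff G γ C0 nb v) := by
  rw [← Finite.injective_iff_bijective]
  intro u w huw
  unfold reff at huw
  by_cases hu : G.Adj v u <;> by_cases hw : G.Adj v w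
  · rw [dif_pos hu, dif_pos hw] at huw
    have := (nb v).symm.injective (Subtype.ext huw)
    exact congrArg Subtype.val this
  · rw [dif_pos hu, dif_neg hw] at huw
    have h1 := (hγ v).mapsTo (show w ∈ {u | ¬ G.Adj v u} from hw)
    rw [← huw] at h1
    exact absurd (Finset.mem_coe.1 h1) ((nb v).symm ⟨u, hu⟩).2
  · rw [dif_neg hu, dif_pos hw] at huw
    have h1 := (hγ v).mapsTo (show u ∈ {u | ¬ G.Adj v u} from hu)
    rw [huw] at h1
    exact absurd (Finset.mem_coe.1 h1) ((nb v).symm ⟨w, hw⟩).2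
  · rw [dif_neg hu, dif_neg hw] at huw
    exact (hγ v).injOn hu hw huw

/-- the edges at `v` -/
def eds (nb : ∀ v, {x : V // x ∉ C0} ≃ {u : V // G.Adj v u}) (v : V) (j : {x : V // x ∉ C0}) :
    G.edgeSet := ⟨s(v, (nb v j).1), (nb v j).2⟩

theorem eds_eq (nb : ∀ v, {x : V // x ∉ C0} ≃ {u : V // G.Adj v u}) (v u : V) (h : G.Adj v u) :
    eds G C0 nb v ((nb v).symm ⟨u, h⟩) = ⟨s(v, u), h⟩ := by
  apply Subtype.ext
  simp [eds]

theorem eds_two (nb : ∀ v, {x : V // x ∉ C0} ≃ {u : V // G.Adj v u}) (e : G.edgeSet) :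
    #{x : V × {x : V // x ∉ C0} | eds G C0 nb x.1 x.2 = e} = 2 := by
  obtain ⟨e, he⟩ := e
  induction e using Sym2.ind with
  | _ a b =>
    have hab : G.Adj a b := he
    have hne : a ≠ b := G.ne_of_adj hab
    rw [Finset.card_eq_two]
    refine ⟨(a, (nb a).symm ⟨b, hab⟩), (b, (nb b).symm ⟨a, hab.symm⟩), ?_, ?_⟩
    · intro h
      exact hne (Prod.ext_iff.1 h).1
    · ext ⟨v, j⟩
      simp only [Finset.mem_filter, Finset.mem_univ, true_and, Finset.mem_insert,
        Finset.mem_singleton, Prod.mk.injEq]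
      constructor
      · intro h
        have h1 := congrArg Subtype.val h
        simp only [eds] at h1
        rcases Sym2.eq_iff.1 h1 with ⟨h2, h3⟩ | ⟨h2, h3⟩
        · left
          refine ⟨h2, ?_⟩
          subst h2
          rw [Equiv.eq_symm_apply]
          exact Subtype.ext h3
        · right
          refine ⟨h2, ?_⟩
          subst h2
          rw [Equiv.eq_symm_apply]
          exact Subtype.ext h3
      · rintro (⟨rfl, rfl⟩ | ⟨rfl, rfl⟩)
        · exact eds_eq G C0 nb _ _ _
        · rw [eds_eq]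
          apply Subtype.ext
          exact Sym2.eq_swap

/-- the row of a colouring at `v` in terms of the colours of the edges at `v`. -/
theorem rowf_eq (hγ : ∀ v, Set.BijOn (γ v) {u | ¬ G.Adj v u} (C0 : Set V))
    (nb : ∀ v, {x : V // x ∉ C0} ≃ {u : V // G.Adj v u})
    (c : G.edgeSet → {x : V // x ∉ C0}) (v : V)
    (hb : Function.Bijective (fun j => c (eds G C0 nb v j))) (u : V) :
    rowf G γ C0 c v u =
      (ofSubtype (Equiv.ofBijective _ hb)) (Equiv.ofBijective _ (reff_bij G γ C0 hγ nb v) u) := by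
  unfold rowf
  rw [Equiv.ofBijective_apply]
  unfold reff
  by_cases hu : G.Adj v u
  · rw [dif_pos hu, dif_pos hu, ofSubtype_apply_coe, Equiv.ofBijective_apply, eds_eq]
  · rw [dif_neg hu, dif_neg hu, ofSubtype_apply_of_not_mem]
    have h1 := (hγ v).mapsTo (show u ∈ {u | ¬ G.Adj v u} from hu)
    simpa using h1

theorem rowf_bij (hγ : ∀ v, Set.BijOn (γ v) {u | ¬ G.Adj v u} (C0 : Set V))
    (nb : ∀ v, {x : V // x ∉ C0} ≃ {u : V // G.Adj v u})
    (c : G.edgeSet → {x : V // x ∉ C0}) (v : V)
    (hb : Function.Bijective (fun j => c (eds G C0 nb v j))) :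
    Function.Bijective (rowf G γ C0 c v) := by
  have h : rowf G γ C0 c v = ⇑((Equiv.ofBijective _ (reff_bij G γ C0 hγ nb v)).trans
      (ofSubtype (Equiv.ofBijective _ hb))) := by
    funext u
    rw [rowf_eq G γ C0 hγ nb c v hb]
    rfl
  rw [h]
  exact Equiv.bijective _

/-- the colouring defined by a family of rows -/
noncomputable def colf (L : V → Perm V)
    (hL : ∀ v u, G.Adj v u → L v u ∉ C0) (e : G.edgeSet) : {x : V // x ∉ C0} :=
  ⟨L (Quot.out e.1).1 (Quot.out e.1).2, hL _ _ (by
    have h : s((Quot.out e.1).1, (Quot.out e.1).2) = e.1 := Quot.out_eq e.1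
    have h2 := e.2
    rw [← h] at h2
    exact h2)⟩

theorem colf_apply (L : V → Perm V) (hsym : ∀ v u, L v u = L u v)
    (hL : ∀ v u, G.Adj v u → L v u ∉ C0) (v u : V) (h : G.Adj v u) :
    (colf G C0 L hL ⟨s(v, u), h⟩).1 = L v u := by
  have h1 : s((Quot.out (s(v, u) : Sym2 V)).1, (Quot.out (s(v, u) : Sym2 V)).2) = s(v, u) :=
    Quot.out_eq _
  unfold colf
  simp only
  rcases Sym2.eq_iff.1 h1 with ⟨h2, h3⟩ | ⟨h2, h3⟩
  · rw [h2, h3]
  · rw [h2, h3, hsym]

theorem sum_eq (hγ : ∀ v, Set.BijOn (γ v) {u | ¬ G.Adj v u} (C0 : Set V))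
    (hγs : ∀ v u, ¬ G.Adj v u → γ v u = γ u v)
    (nb : ∀ v, {x : V // x ∉ C0} ≃ {u : V // G.Adj v u}) :
    Ssum G γ = (∏ v, ((sign (Equiv.ofBijective _ (reff_bij G γ C0 hγ nb v)) : ℤˣ) : ℤ)) *
      ∑ c : G.edgeSet → {x : V // x ∉ C0}, ∏ v, sg (fun j => c (eds G C0 nb v j)) := by
  classical
  rw [Finset.mul_sum]
  unfold Ssum
  rw [← Finset.sum_filter]
  have h1 : ∑ c : G.edgeSet → {x : V // x ∉ C0},
      (∏ v, ((sign (Equiv.ofBijective _ (reff_bij G γ C0 hγ nb v)) : ℤˣ) : ℤ)) *
        ∏ v, sg (fun j => c (eds G C0 nb v j)) =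
      ∑ c ∈ univ.filter (fun c : G.edgeSet → {x : V // x ∉ C0} =>
        ∀ v, Function.Bijective (fun j => c (eds G C0 nb v j))),
      (∏ v, ((sign (Equiv.ofBijective _ (reff_bij G γ C0 hγ nb v)) : ℤˣ) : ℤ)) *
        ∏ v, sg (fun j => c (eds G C0 nb v j)) := by
    symm
    apply Finset.sum_subset (Finset.filter_subset _ _)
    intro c _ hc
    simp only [Finset.mem_filter, Finset.mem_univ, true_and, not_forall] at hc
    obtain ⟨v, hv⟩ := hc
    have h2 : ¬ Function.Injective (fun j => c (eds G C0 nb v j)) :=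
      fun h => hv (Finite.injective_iff_bijective.1 h)
    have h3 : ∏ v, sg (fun j => c (eds G C0 nb v j)) = 0 :=
      Finset.prod_eq_zero (Finset.mem_univ v) (sg_eq_zero h2)
    rw [h3, mul_zero]
  rw [h1]
  symm
  refine Finset.sum_bij (fun c hc => fun v => Equiv.ofBijective (rowf G γ C0 c v)
    (rowf_bij G γ C0 hγ nb c v (by
      simp only [Finset.mem_filter, Finset.mem_univ, true_and] at hc
      exact hc v))) ?_ ?_ ?_ ?_
  · intro c hc
    simp only [Finset.mem_filter, Finset.mem_univ, true_and, Equiv.ofBijective_apply]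
    refine ⟨?_, ?_⟩
    · intro v u
      unfold rowf
      by_cases h : G.Adj v u
      · rw [dif_pos h, dif_pos h.symm]
        congr 2
        exact Subtype.ext Sym2.eq_swap
      · have h' : ¬ G.Adj u v := fun h2 => h h2.symm
        rw [dif_neg h, dif_neg h', hγs v u h]
    · intro v u h
      unfold rowf
      rw [dif_neg h]
  · intro c hc c' hc' h
    funext e
    obtain ⟨e, he⟩ := e
    induction e using Sym2.ind with
    | _ a b =>
      have h2 := DFunLike.congr_fun (congrFun h a) b
      rw [Equiv.ofBijective_apply, Equiv.ofBijective_apply] at h2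
      unfold rowf at h2
      have hab : G.Adj a b := he
      rw [dif_pos hab, dif_pos hab] at h2
      exact Subtype.ext h2
  · intro L hL
    simp only [Finset.mem_filter, Finset.mem_univ, true_and] at hL
    obtain ⟨hsym, hpre⟩ := hL
    have hL0 : ∀ v u, G.Adj v u → L v u ∉ C0 := by
      intro v u h hmem
      obtain ⟨w, hw1, hw2⟩ := (hγ v).surjOn (Finset.mem_coe.2 hmem)
      have hw1' : ¬ G.Adj v w := hw1
      rw [← hpre v w hw1'] at hw2
      have := (L v).injective hw2
      subst this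
      exact hw1' h
    have hinj : ∀ v, Function.Bijective (fun j => colf G C0 L hL0 (eds G C0 nb v j)) := by
      intro v
      rw [← Finite.injective_iff_bijective]
      intro i j hij
      have h2 := congrArg Subtype.val hij
      simp only [eds] at h2
      rw [colf_apply G C0 L hsym hL0 _ _ (nb v i).2, colf_apply G C0 L hsym hL0 _ _ (nb v j).2] at h2
      exact (nb v).injective (Subtype.ext ((L v).injective h2))
    refine ⟨colf G C0 L hL0, ?_, ?_⟩
    · simp only [Finset.mem_filter, Finset.mem_univ, true_and]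
      exact hinj
    · funext v
      ext u
      rw [Equiv.ofBijective_apply]
      unfold rowf
      by_cases h : G.Adj v u
      · rw [dif_pos h, colf_apply G C0 L hsym hL0]
      · rw [dif_neg h, hpre v u h]
  · intro c hc
    simp only [Finset.mem_filter, Finset.mem_univ, true_and] at hc
    rw [← Finset.prod_mul_distrib]
    apply Finset.prod_congr rfl
    intro v _
    have h2 : Equiv.ofBijective (rowf G γ C0 c v) (rowf_bij G γ C0 hγ nb c v (hc v)) =
        (ofSubtype (Equiv.ofBijective _ (hc v))) *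
          (Equiv.ofBijective _ (reff_bij G γ C0 hγ nb v)) := by
      ext u
      rw [Equiv.ofBijective_apply, rowf_eq G γ C0 hγ nb c v (hc v)]
      rfl
    have h3 : sg (fun j => c (eds G C0 nb v j)) =
        ((sign (Equiv.ofBijective _ (hc v)) : ℤˣ) : ℤ) := by
      rw [← sg_perm]
      rfl
    simp only
    rw [h2, Perm.sign_mul, sign_ofSubtype, h3]
    push_cast
    ring

/-- If the signed sum of the extensions of the prescribed entries is non-zero, then the
`d`-regular graph `G` is `d`-edge-choosable. The prescribed entries at `v` form a bijection from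
the non-neighbours of `v` (including `v`) onto a fixed set `C0` of colours. -/
theorem bridge (d : ℕ) (hreg : G.IsRegularOfDegree d)
    (hγ : ∀ v, Set.BijOn (γ v) {u | ¬ G.Adj v u} (C0 : Set V))
    (hne : Ssum G γ ≠ 0) : Choosable G d := by
  classical
  have hγs : ∀ v u, ¬ G.Adj v u → γ v u = γ u v := by
    unfold Ssum at hne
    obtain ⟨L, _, hL⟩ := Finset.exists_ne_zero_of_sum_ne_zero hne
    rw [Ne, ite_eq_right_iff, not_forall] at hL
    obtain ⟨⟨hsym, hpre⟩, _⟩ := hL
    intro v u h
    rw [← hpre v u h, ← hpre u v (fun h2 => h h2.symm), hsym]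
  rcases isEmpty_or_nonempty V with hV | ⟨⟨v0⟩⟩
  · intro L _
    refine ⟨fun _ => 0, fun e => ?_, fun e => ?_⟩
    · exact (hV.false (Quot.out e.1).1).elim
    · exact (hV.false (Quot.out e.1).1).elim
  have hcardN : ∀ v, Fintype.card {u : V // G.Adj v u} = d := by
    intro v
    rw [← hreg v, ← SimpleGraph.card_neighborSet_eq_degree]
    rfl
  have hcardC : ∀ v, Fintype.card {x : V // x ∉ C0} = Fintype.card {u : V // G.Adj v u} := by
    intro v
    have h1 : Fintype.card {x : V // x ∈ C0} = Fintype.card {u : V // ¬ G.Adj v u} := by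
      symm
      refine Fintype.card_congr ?_
      exact (Set.BijOn.equiv _ (hγ v))
    have h2 := Fintype.card_subtype_compl (fun x => x ∈ C0)
    have h3 := Fintype.card_subtype_compl (fun u => G.Adj v u)
    have h4 := Fintype.card_subtype_le (fun u => G.Adj v u)
    omega
  let nb : ∀ v, {x : V // x ∉ C0} ≃ {u : V // G.Adj v u} := fun v =>
    Fintype.equivOfCardEq (hcardC v)
  have hN : ∑ c : G.edgeSet → {x : V // x ∉ C0}, ∏ v, sg (fun j => c (eds G C0 nb v j)) ≠ 0 := by
    intro h
    apply hne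
    rw [sum_eq G γ C0 hγ hγs nb, h, mul_zero]
  intro L hL
  obtain ⟨f, hf1, hf2⟩ := at_main (eds G C0 nb) (eds_two G C0 nb) hN L (by
    intro e
    rw [hcardC v0, hcardN v0]
    exact hL e)
  refine ⟨f, hf1, ?_⟩
  intro e e' hadj heq
  rw [SimpleGraph.lineGraph_adj_iff_exists] at hadj
  obtain ⟨hne', v, hve, hve'⟩ := hadj
  obtain ⟨w, hw⟩ := hve
  obtain ⟨w', hw'⟩ := hve'
  have h1 : G.Adj v w := by
    have := e.2
    rw [hw] at this
    exact this
  have h2 : G.Adj v w' := by
    have := e'.2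
    rw [hw'] at this
    exact this
  have h3 : e = eds G C0 nb v ((nb v).symm ⟨w, h1⟩) := by
    rw [eds_eq]
    exact Subtype.ext hw
  have h4 : e' = eds G C0 nb v ((nb v).symm ⟨w', h2⟩) := by
    rw [eds_eq]
    exact Subtype.ext hw'
  have h5 := hf2 v (a₁ := (nb v).symm ⟨w, h1⟩) (a₂ := (nb v).symm ⟨w', h2⟩) (by
    simp only
    rw [← h3, ← h4]
    exact heq)
  apply hne'
  rw [h3, h4, h5]

end bridge

end Pool.Agent.H162R2.LEC
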