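import Pool.Agent.H162R2.LEC.Circ
import Pool.Agent.H604R2.LEC.AT

/-!
# From edge choosability of complete graphs to total choosability
-/

set_option autoImplicit false
set_option linter.unusedSectionVars false

namespace Pool.Agent.H162R2.LEC

open Finset Pool.Agent.H921R2.LEC

/-- Monotonicity of edge choosability. -/
theorem choosable_of_embed {W V : Type} (H : SimpleGraph W) (d : ℕ) (hH : Choosable H d)
    (G : SimpleGraph V) (φ : V → W) (hφ : Function.Injective φ)
    (hadj : ∀ u w, G.Adj u w → H.Adj (φ u) (φ w)) : Choosable G d := by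
  classical
  intro L hL
  let L' : H.edgeSet → Finset ℕ := fun e =>
    if h : ∃ e0 : G.edgeSet, Sym2.map φ e0.1 = e.1 then L h.choose else Finset.range d
  have hL' : ∀ e, d ≤ (L' e).card := by
    intro e
    simp only [L']
    split_ifs with h
    · exact hL _
    · rw [Finset.card_range]
  obtain ⟨f, hf1, hf2⟩ := hH L' hL'
  have hmem : ∀ e : G.edgeSet, Sym2.map φ e.1 ∈ H.edgeSet := by
    rintro ⟨e, he⟩
    induction e using Sym2.ind with
    | _ a b => exact hadj a b he
  refine ⟨fun e => f ⟨Sym2.map φ e.1, hmem e⟩, ?_, ?_⟩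
  · intro e
    have h1 := hf1 ⟨Sym2.map φ e.1, hmem e⟩
    have h2 : ∃ e0 : G.edgeSet, Sym2.map φ e0.1 = Sym2.map φ e.1 := ⟨e, rfl⟩
    have h3 : L' ⟨Sym2.map φ e.1, hmem e⟩ = L e := by
      simp only [L']
      rw [dif_pos h2]
      congr 1
      exact Subtype.ext (Sym2.map.injective hφ h2.choose_spec)
    rwa [h3] at h1
  · intro e e' he
    apply hf2
    rw [SimpleGraph.lineGraph_adj_iff_exists] at he ⊢
    obtain ⟨hne, u, hu, hu'⟩ := he
    refine ⟨?_, φ u, ?_, ?_⟩
    · intro h
      apply hne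
      have h2 := congrArg Subtype.val h
      exact Subtype.ext (Sym2.map.injective hφ h2)
    · exact Sym2.mem_map.2 ⟨u, hu, rfl⟩
    · exact Sym2.mem_map.2 ⟨u, hu', rfl⟩

/-- Total choosability of graphs of order `n` with a dominating vertex from the edge choosability
of the complete graph of order `n + 1`. -/
theorem listTotal_of_top {W V : Type} [Fintype W] [Fintype V] (n : ℕ)
    (hW : Fintype.card W = n + 1) (hH : Choosable (⊤ : SimpleGraph W) n)
    (hV : Fintype.card V = n) (G : SimpleGraph V) (v₀ : V) (hv : ∀ w, w ≠ v₀ → G.Adj v₀ w)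
    (k : ℕ)
    (hcol : ∃ c : V ⊕ G.edgeSet → Fin k,
      (∀ u v : V, G.Adj u v → c (Sum.inl u) ≠ c (Sum.inl v)) ∧
      (∀ e f : G.edgeSet, e ≠ f →
        (∃ v : V, v ∈ (e : Sym2 V) ∧ v ∈ (f : Sym2 V)) →
          c (Sum.inr e) ≠ c (Sum.inr f)) ∧
      (∀ (v : V) (e : G.edgeSet), v ∈ (e : Sym2 V) →
          c (Sum.inl v) ≠ c (Sum.inr e)))
    (L : V ⊕ G.edgeSet → Finset ℕ) (hL : ∀ x, k ≤ (L x).card) :
      ∃ c : V ⊕ G.edgeSet → ℕ,
        (∀ x, c x ∈ L x) ∧
        (∀ u v : V, G.Adj u v → c (Sum.inl u) ≠ c (Sum.inl v)) ∧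
        (∀ e f : G.edgeSet, e ≠ f →
          (∃ v : V, v ∈ (e : Sym2 V) ∧ v ∈ (f : Sym2 V)) →
            c (Sum.inr e) ≠ c (Sum.inr f)) ∧
        (∀ (v : V) (e : G.edgeSet), v ∈ (e : Sym2 V) →
            c (Sum.inl v) ≠ c (Sum.inr e)) := by
  classical
  -- the star at `v₀` and `v₀` itself need `n` colours
  have hk : n ≤ k := by
    obtain ⟨c, hc1, hc2, hc3⟩ := hcol
    let g : V → Fin k := fun w => if h : w = v₀ then c (Sum.inl v₀) else
      c (Sum.inr ⟨s(v₀, w), hv w h⟩)
    have hg : Function.Injective g := by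
      intro w w' hww
      simp only [g] at hww
      by_cases h : w = v₀ <;> by_cases h' : w' = v₀
      · rw [h, h']
      · rw [dif_pos h, dif_neg h'] at hww
        exact absurd hww (hc3 v₀ _ (Sym2.mem_mk_left _ _))
      · rw [dif_neg h, dif_pos h'] at hww
        exact absurd hww.symm (hc3 v₀ _ (Sym2.mem_mk_left _ _))
      · rw [dif_neg h, dif_neg h'] at hww
        by_contra hne
        refine hc2 ⟨s(v₀, w), hv w h⟩ ⟨s(v₀, w'), hv w' h'⟩ ?_
          ⟨v₀, Sym2.mem_mk_left _ _, Sym2.mem_mk_left _ _⟩ hww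
        intro h2
        have h3 := congrArg Subtype.val h2
        simp only at h3
        rcases Sym2.eq_iff.1 h3 with ⟨_, h4⟩ | ⟨h4, _⟩
        · exact hne h4
        · exact h' h4.symm
    have := Fintype.card_le_of_injective g hg
    rw [hV, Fintype.card_fin] at this
    exact this
  -- transport to `Option V`
  have hcard : Fintype.card (Option V) = Fintype.card W := by
    rw [Fintype.card_option, hV, hW]
  let φ : Option V ≃ W := Fintype.equivOfCardEq hcard
  have hO : Choosable (⊤ : SimpleGraph (Option V)) n := by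
    refine choosable_of_embed ⊤ n hH ⊤ φ φ.injective ?_
    intro u w huw
    rw [SimpleGraph.top_adj] at huw ⊢
    exact fun h => huw (φ.injective h)
  let L' : (⊤ : SimpleGraph (Option V)).edgeSet → Finset ℕ := fun e =>
    if h : ∃ v : V, e.1 = s(none, some v) then L (Sum.inl h.choose) else
      if h : ∃ e0 : G.edgeSet, Sym2.map some e0.1 = e.1 then L (Sum.inr h.choose) else
        Finset.range n
  have hL' : ∀ e, n ≤ (L' e).card := by
    intro e
    simp only [L']
    split_ifs with h h'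
    · exact hk.trans (hL _)
    · exact hk.trans (hL _)
    · rw [Finset.card_range]
  obtain ⟨f, hf1, hf2⟩ := hO L' hL'
  have hm1 : ∀ v : V, s(none, some v) ∈ (⊤ : SimpleGraph (Option V)).edgeSet := by
    intro v
    rw [SimpleGraph.mem_edgeSet, SimpleGraph.top_adj]
    exact (Option.some_ne_none v).symm
  have hm2 : ∀ e : G.edgeSet, Sym2.map some e.1 ∈ (⊤ : SimpleGraph (Option V)).edgeSet := by
    rintro ⟨e, he⟩
    induction e using Sym2.ind with
    | _ a b =>
      rw [Sym2.map_mk, SimpleGraph.mem_edgeSet, SimpleGraph.top_adj]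
      have hab : G.Adj a b := he
      exact fun h => G.ne_of_adj hab (Option.some_injective V h)
  have hL1 : ∀ v : V, L' ⟨_, hm1 v⟩ = L (Sum.inl v) := by
    intro v
    have h2 : ∃ v' : V, s((none : Option V), some v) = s(none, some v') := ⟨v, rfl⟩
    simp only [L']
    rw [dif_pos h2]
    congr 2
    have h3 := h2.choose_spec
    rcases Sym2.eq_iff.1 h3 with ⟨_, h4⟩ | ⟨h4, _⟩
    · exact (Option.some_injective V h4).symm
    · exact absurd h4.symm (Option.some_ne_none _)
  have hL2 : ∀ e : G.edgeSet, L' ⟨_, hm2 e⟩ = L (Sum.inr e) := by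
    intro e
    have h2 : ¬ ∃ v' : V, Sym2.map some e.1 = s(none, some v') := by
      rintro ⟨v', h⟩
      have h3 : (none : Option V) ∈ Sym2.map some e.1 := by
        rw [h]
        exact Sym2.mem_mk_left _ _
      obtain ⟨a, _, ha⟩ := Sym2.mem_map.1 h3
      exact Option.some_ne_none a ha
    have h3 : ∃ e0 : G.edgeSet, Sym2.map some e0.1 = Sym2.map some e.1 := ⟨e, rfl⟩
    simp only [L']
    rw [dif_neg h2, dif_pos h3]
    congr 2
    exact Subtype.ext (Sym2.map.injective (Option.some_injective V) h3.choose_spec)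
  refine ⟨fun x => Sum.elim (fun v => f ⟨_, hm1 v⟩) (fun e => f ⟨_, hm2 e⟩) x, ?_, ?_, ?_, ?_⟩
  · rintro (v | e)
    · rw [← hL1 v]
      exact hf1 _
    · rw [← hL2 e]
      exact hf1 _
  · intro u v huv
    simp only [Sum.elim_inl]
    apply hf2
    rw [SimpleGraph.lineGraph_adj_iff_exists]
    refine ⟨?_, none, Sym2.mem_mk_left _ _, Sym2.mem_mk_left _ _⟩
    intro h
    have h2 := congrArg Subtype.val h
    simp only at h2
    rcases Sym2.eq_iff.1 h2 with ⟨_, h4⟩ | ⟨h4, _⟩
    · exact G.ne_of_adj huv (Option.some_injective V h4)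
    · exact absurd h4.symm (Option.some_ne_none _)
  · intro e e' hne hv'
    obtain ⟨v, hv1, hv2⟩ := hv'
    simp only [Sum.elim_inr]
    apply hf2
    rw [SimpleGraph.lineGraph_adj_iff_exists]
    refine ⟨?_, some v, Sym2.mem_map.2 ⟨v, hv1, rfl⟩, Sym2.mem_map.2 ⟨v, hv2, rfl⟩⟩
    intro h
    apply hne
    have h2 := congrArg Subtype.val h
    exact Subtype.ext (Sym2.map.injective (Option.some_injective V) h2)
  · intro v e hve
    simp only [Sum.elim_inl, Sum.elim_inr]
    apply hf2
    rw [SimpleGraph.lineGraph_adj_iff_exists]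
    refine ⟨?_, some v, Sym2.mem_mk_right _ _, Sym2.mem_map.2 ⟨v, hve, rfl⟩⟩
    intro h
    have h2 := congrArg Subtype.val h
    simp only at h2
    have h3 : (none : Option V) ∈ Sym2.map some e.1 := by
      rw [← h2]
      exact Sym2.mem_mk_left _ _
    obtain ⟨a, _, ha⟩ := Sym2.mem_map.1 h3
    exact Option.some_ne_none a ha

theorem choosable_top_two_p (p : ℕ) [hp : Fact p.Prime] (hp2 : p ≠ 2) :
    Choosable (⊤ : SimpleGraph (ZMod p × Bool)) (2 * p - 1) := by
  have h := choosable_gD p hp2 Finset.univ Finset.univ_nonempty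
  have h1 : p - 1 + (Finset.univ : Finset (ZMod p)).card = 2 * p - 1 := by
    rw [Finset.card_univ, ZMod.card]
    have := hp.out.pos
    omega
  rwa [gD_univ, h1] at h

open Pool.Agent.H604R2.LEC in
/-- The complete graph on `m + 1 = p - 1` vertices is `m`-edge-choosable (helper604). -/
theorem choosable_top_p_sub_one {p : ℕ} [Fact p.Prime] {m : ℕ} (hp : p = m + 2)
    (hk : Even (m + 1)) : Choosable (⊤ : SimpleGraph (Fin (m + 1))) m := by
  classical
  intro L hL
  let L' : Ed (m + 1) → Finset ℕ := fun e => L ⟨s(e.1.1, e.1.2), by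
    rw [SimpleGraph.mem_edgeSet, SimpleGraph.top_adj]
    exact ne_of_lt e.2⟩
  obtain ⟨f, hf1, hf2⟩ := list_colour (p := p) hp hk L' (fun e => hL _)
  have hedge : ∀ e : (⊤ : SimpleGraph (Fin (m + 1))).edgeSet,
      ∃ e' : Ed (m + 1), s(e'.1.1, e'.1.2) = e.1 := by
    rintro ⟨e, he⟩
    induction e using Sym2.ind with
    | _ a b =>
      rw [SimpleGraph.mem_edgeSet, SimpleGraph.top_adj] at he
      rcases lt_or_gt_of_ne he with h | h
      · exact ⟨⟨(a, b), h⟩, rfl⟩
      · exact ⟨⟨(b, a), h⟩, Sym2.eq_swap⟩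
  choose ε hε using hedge
  have hedj : ∀ (v w : Fin (m + 1)) (hvw : v ≠ w)
      (e : (⊤ : SimpleGraph (Fin (m + 1))).edgeSet), e.1 = s(v, w) →
      ∃ j : Fin m, v.succAbove j = w ∧ edj v j = ε e := by
    intro v w hvw e he
    obtain ⟨j, hj⟩ := Fin.exists_succAbove_eq hvw.symm
    refine ⟨j, hj, ?_⟩
    have h1 := hε e
    rw [he] at h1
    have hlt := (ε e).2
    rcases Sym2.eq_iff.1 h1 with ⟨h2, h3⟩ | ⟨h2, h3⟩
    · have h4 : v < w := by rw [← h2, ← h3]; exact hlt
      rw [edj_of_lt hj h4]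
      apply Subtype.ext
      exact Prod.ext h2.symm h3.symm
    · have h4 : ¬ v < w := by rw [← h2, ← h3]; exact not_lt.2 hlt.le
      unfold edj
      subst hj
      rw [dif_neg h4]
      apply Subtype.ext
      exact Prod.ext h2.symm h3.symm
  refine ⟨fun e => f (ε e), ?_, ?_⟩
  · intro e
    have h1 := hf1 (ε e)
    have h2 : L' (ε e) = L e := by
      simp only [L']
      congr 1
      exact Subtype.ext (hε e)
    rw [h2] at h1
    exact h1
  · intro e e' hadj
    rw [SimpleGraph.lineGraph_adj_iff_exists] at hadj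
    obtain ⟨hne, v, hve, hve'⟩ := hadj
    obtain ⟨w, hw⟩ := hve
    obtain ⟨w', hw'⟩ := hve'
    have hvw : v ≠ w := by
      have h := e.2
      rw [hw, SimpleGraph.mem_edgeSet, SimpleGraph.top_adj] at h
      exact h
    have hvw' : v ≠ w' := by
      have h := e'.2
      rw [hw', SimpleGraph.mem_edgeSet, SimpleGraph.top_adj] at h
      exact h
    obtain ⟨i, hi, hi2⟩ := hedj v w hvw e hw
    obtain ⟨j, hj, hj2⟩ := hedj v w' hvw' e' hw'
    have hij : i ≠ j := by
      intro h
      rw [h, hj] at hi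
      apply hne
      apply Subtype.ext
      rw [hw, hw', hi]
    have h3 := hf2 v i j hij
    rw [hi2, hj2] at h3
    exact h3

end Pool.Agent.H162R2.LEC
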